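import Mathlib

/-!
Mennicke symbols over the integers are trivial (the arithmetic part of the congruence subgroup
theorem for `SL_k(ℤ)`, `k ≥ 3`), by Dirichlet's theorem.
-/

set_option autoImplicit false

namespace Pool.Agent.K89

/-- `(a, b)` is the first row of a matrix in `SL_2(ℤ)` congruent to `1` modulo `M` -/
def WW (M a b : ℤ) : Prop := IsCoprime a b ∧ M ∣ a - 1 ∧ M ∣ b

theorem coprime_of_dvd_sub_one {M a : ℤ} (h : M ∣ a - 1) : IsCoprime a M := by
  obtain ⟨u, hu⟩ := h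
  exact ⟨1, -u, by linarith⟩

theorem ww_mul {M a x : ℤ} (h : M ∣ a - 1) (hx : IsCoprime a x) : WW M a (M * x) :=
  ⟨(coprime_of_dvd_sub_one h).mul_right hx, h, Dvd.intro _ rfl⟩

section

variable {Q : Type} [Group Q] {M : ℤ} {s : ℤ → ℤ → Q}

/-- the symbol as a function of `x`, `b = M x` -/
theorem van_one (h2 : ∀ a b t, WW M a b → s b (a + t * b) = s b a)
    (h5 : ∀ b, M ∣ b → s b 1 = 1) {a : ℤ} (ha : M ∣ a - 1) (e : ℤ) (he : e = 1 ∨ e = -1) :
    s (M * e) a = 1 := by
  obtain ⟨u, hu⟩ := ha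
  have hd : M ∣ M * e := Dvd.intro _ rfl
  have h1 : WW M 1 (M * e) := ⟨isCoprime_one_left, by simp, hd⟩
  have h3 := h2 1 (M * e) (u * e) h1
  have e1 : 1 + u * e * (M * e) = a := by
    have e2 : e * e = 1 := by rcases he with rfl | rfl <;> norm_num
    linear_combination u * M * e2 - hu
  rw [e1, h5 _ hd] at h3
  exact h3

omit [Group Q] in
theorem van_shift (h1 : ∀ a b t, WW M a b → s (b + t * (M * a)) a = s b a) {a x : ℤ} (t : ℤ)
    (ha : M ∣ a - 1) (hx : IsCoprime a x) : s (M * (x + t * a)) a = s (M * x) a := by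
  have h3 := h1 a (M * x) t (ww_mul ha hx)
  rw [← h3]
  congr 1
  ring

theorem van_mul (h2 : ∀ a b t, WW M a b → s b (a + t * b) = s b a)
    (h3 : ∀ a b b', WW M a b → WW M a b' → s (b * b') a = s b a * s b' a)
    (h5 : ∀ b, M ∣ b → s b 1 = 1) {a x y : ℤ} (ha : M ∣ a - 1) (hx : IsCoprime a x)
    (hy : IsCoprime a y) : s (M * (x * y)) a = s (M * x) a * s (M * y) a := by
  have hM : ∀ z : ℤ, IsCoprime a z → s (M * (M * z)) a = s (M * z) a := by
    intro z hz
    have h6 := h3 a (M * z) (M * 1) (ww_mul ha hz) (ww_mul ha isCoprime_one_right)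
    rw [van_one h2 h5 ha 1 (Or.inl rfl), mul_one, mul_one] at h6
    rw [← h6]
    congr 1
    ring
  rw [← h3 a (M * x) (M * y) (ww_mul ha hx) (ww_mul ha hy), ← hM _ (hx.mul_right hy)]
  congr 1
  ring

theorem van_pow (h2 : ∀ a b t, WW M a b → s b (a + t * b) = s b a)
    (h3 : ∀ a b b', WW M a b → WW M a b' → s (b * b') a = s b a * s b' a)
    (h5 : ∀ b, M ∣ b → s b 1 = 1) {a x : ℤ} (ha : M ∣ a - 1) (hx : IsCoprime a x) (n : ℕ) :
    s (M * x ^ n) a = s (M * x) a ^ n := by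
  induction n with
  | zero =>
    rw [pow_zero, pow_zero]
    exact van_one h2 h5 ha 1 (Or.inl rfl)
  | succ n ih =>
    rw [pow_succ, pow_succ, van_mul h2 h3 h5 ha hx.pow_right hx, ih]

theorem van_pow_left (h4 : ∀ a a' b, WW M a b → WW M a' b → s b (a * a') = s b a * s b a')
    (h5 : ∀ b, M ∣ b → s b 1 = 1) {a b : ℤ} (hw : WW M a b) (n : ℕ) :
    WW M (a ^ n) b ∧ s b (a ^ n) = s b a ^ n := by
  induction n with
  | zero =>
    rw [pow_zero, pow_zero]
    exact ⟨⟨isCoprime_one_left, by simp, hw.2.2⟩, h5 b hw.2.2⟩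
  | succ n ih =>
    rw [pow_succ, pow_succ, h4 _ _ _ ih.1 hw, ih.2]
    refine ⟨⟨ih.1.1.mul_left hw.1, ?_, hw.2.2⟩, rfl⟩
    have e : a ^ n * a - 1 = (a ^ n - 1) * a + (a - 1) := by ring
    rw [e]
    exact dvd_add (ih.1.2.1.mul_right _) hw.2.1

/-- the symbol for `a = ± p`, `p` prime, `p = 3 mod 4` -/
theorem van_prime (hM : M ≠ 0) (h1 : ∀ a b t, WW M a b → s (b + t * (M * a)) a = s b a)
    (h2 : ∀ a b t, WW M a b → s b (a + t * b) = s b a)
    (h3 : ∀ a b b', WW M a b → WW M a b' → s (b * b') a = s b a * s b' a)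
    (h4 : ∀ a a' b, WW M a b → WW M a' b → s b (a * a') = s b a * s b a')
    (h5 : ∀ b, M ∣ b → s b 1 = 1) (p : ℕ) (hp : p.Prime) (hp4 : p % 4 = 3) (A : ℤ)
    (hA : A = p ∨ A = -p) (hA1 : M ∣ A - 1) (x : ℤ) (hx : IsCoprime A x) :
    s (M * x) A = 1 := by
  have hfp : Fact p.Prime := ⟨hp⟩
  have hAp : ∀ z : ℤ, (p : ℤ) ∣ z → A ∣ z := by
    intro z hz
    rcases hA with rfl | rfl
    · exact hz
    · exact (neg_dvd).2 hz
  have hpA : (p : ℤ) ∣ A := by
    rcases hA with rfl | rfl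
    · exact dvd_rfl
    · exact (dvd_neg).2 dvd_rfl
  have hcong : ∀ y z : ℤ, IsCoprime A z → (p : ℤ) ∣ y - z → s (M * y) A = s (M * z) A := by
    intro y z hz hyz
    obtain ⟨t, ht⟩ := hAp _ hyz
    have e : y = z + t * A := by linarith
    rw [e]
    exact van_shift h1 t hA1 hz
  have hunit : ∀ z : ℤ, IsCoprime A z → ((z : ℤ) : ZMod p) ≠ 0 := by
    intro z hz h0
    rw [ZMod.intCast_zmod_eq_zero_iff_dvd] at h0
    have h6 : IsUnit ((p : ℤ)) := hz.isUnit_of_dvd' hpA h0
    have h7 := Int.isUnit_iff_natAbs_eq.1 h6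
    simp at h7
    exact hp.one_lt.ne' h7
  -- the odd order
  obtain ⟨h, hh⟩ : ∃ h, h = p / 2 := ⟨_, rfl⟩
  have hodd : h % 2 = 1 := by omega
  have hph : p = 2 * h + 1 := by omega
  have ho1 : s (M * x) A ^ h = 1 := by
    rw [← van_pow h2 h3 h5 hA1 hx]
    have h6 := ZMod.pow_div_two_eq_neg_one_or_one p (hunit x hx)
    rw [← hh] at h6
    rcases h6 with h6 | h6
    · rw [hcong (x ^ h) 1 isCoprime_one_right ?_]
      · exact van_one h2 h5 hA1 1 (Or.inl rfl)
      · rw [← ZMod.intCast_zmod_eq_zero_iff_dvd]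
        push_cast
        rw [h6, sub_self]
    · rw [hcong (x ^ h) (-1) isCoprime_one_right.neg_right ?_]
      · exact van_one h2 h5 hA1 (-1) (Or.inr rfl)
      · rw [← ZMod.intCast_zmod_eq_zero_iff_dvd]
        push_cast
        rw [h6]
        ring
  -- the prime `r`
  have hh0 : 0 < h := by omega
  have hcoph : Nat.Coprime p h := by
    rw [Nat.Prime.coprime_iff_not_dvd hp]
    intro hd
    have := Nat.le_of_dvd hh0 hd
    omega
  obtain ⟨x0, hx0⟩ : ∃ x0 : ℕ, (x0 : ℤ) = x % p :=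
    ⟨(x % p).toNat, Int.toNat_of_nonneg (Int.emod_nonneg _ (by exact_mod_cast hp.ne_zero))⟩
  have hx0x : (p : ℤ) ∣ (x0 : ℤ) - x := by
    rw [hx0]
    exact ⟨-(x / p), by have := Int.emod_add_mul_ediv x p; linarith⟩
  obtain ⟨y, hy1, hy2⟩ := Nat.chineseRemainder hcoph x0 2
  have hyp : Nat.Coprime y p := by
    rw [Nat.coprime_comm, Nat.Prime.coprime_iff_not_dvd hp]
    intro hd
    have h6 : p ∣ x0 := (hy1.dvd_iff dvd_rfl).1 hd
    apply hunit x hx
    rw [ZMod.intCast_zmod_eq_zero_iff_dvd]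
    have h7 : (p : ℤ) ∣ x0 := by exact_mod_cast h6
    have h8 := dvd_sub h7 hx0x
    rwa [sub_sub_cancel] at h8
  have hyh : Nat.Coprime y h := by
    have h6 := hy2.gcd_eq
    unfold Nat.Coprime
    rw [h6]
    have h7 : Nat.Coprime 2 h := by
      rw [Nat.coprime_two_left, Nat.odd_iff]
      exact hodd
    exact h7
  obtain ⟨r, hr1, hr, hr2⟩ := Nat.forall_exists_prime_gt_and_modEq M.natAbs
    (q := p * h) (a := y) (mul_ne_zero hp.ne_zero hh0.ne') (Nat.Coprime.mul_right hyp hyh)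
  have hrp : r ≡ x0 [MOD p] := (hr2.of_dvd (Dvd.intro _ rfl)).trans hy1
  have hrh : r ≡ 2 [MOD h] := (hr2.of_dvd (Dvd.intro_left _ rfl)).trans hy2
  have hrx : (p : ℤ) ∣ (r : ℤ) - x := by
    have h6 : (p : ℤ) ∣ (x0 : ℤ) - r := (Nat.modEq_iff_dvd).1 hrp
    have h7 := dvd_sub hx0x h6
    have e : (x0 : ℤ) - x - (x0 - r) = r - x := by ring
    rwa [e] at h7
  have hpr : p ≠ r := by
    intro e
    rw [← e] at hrx
    apply hunit x hx
    rw [ZMod.intCast_zmod_eq_zero_iff_dvd]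
    have h8 := dvd_sub (dvd_refl (p : ℤ)) hrx
    rwa [sub_sub_cancel] at h8
  have hAr : IsCoprime A (r : ℤ) := by
    have h6 : IsCoprime (p : ℤ) (r : ℤ) :=
      Nat.isCoprime_iff_coprime.2 ((Nat.coprime_primes hp hr).2 hpr)
    rcases hA with rfl | rfl
    · exact h6
    · exact h6.neg_left
  have hMr : IsCoprime M (r : ℤ) := by
    have h6 : Nat.Coprime M.natAbs r := by
      rw [Nat.coprime_comm, Nat.Prime.coprime_iff_not_dvd hr]
      intro hd
      have := Nat.le_of_dvd (Int.natAbs_pos.2 hM) hd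
      omega
    rw [Int.isCoprime_iff_gcd_eq_one]
    exact h6
  rw [← hcong r x hx hrx] at ho1 ⊢
  obtain ⟨hw1, hw2⟩ := van_pow_left h4 h5 (ww_mul hA1 hAr) (r - 1)
  have hfer : (r : ℤ) ∣ A ^ (r - 1) - 1 :=
    (Int.modEq_iff_dvd).1 (Int.ModEq.pow_card_sub_one_eq_one hr hAr).symm
  obtain ⟨t, ht⟩ := hMr.mul_dvd hw1.2.1 hfer
  have ho2 : s (M * r) A ^ (r - 1) = 1 := by
    rw [← hw2]
    have h6 := h2 1 (M * r) t ⟨isCoprime_one_left, by simp, Dvd.intro _ rfl⟩
    have e : A ^ (r - 1) = 1 + t * (M * r) := by linarith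
    rw [e, h6]
    exact h5 _ (Dvd.intro _ rfl)
  have hgcd : Nat.gcd h (r - 1) = 1 := by
    have h6 : r - 1 ≡ 1 [MOD h] := by
      have h7 : r - 1 + 1 ≡ 1 + 1 [MOD h] := by
        rw [Nat.sub_add_cancel hr.one_lt.le]
        exact hrh
      exact Nat.ModEq.add_right_cancel' 1 h7
    rw [Nat.gcd_comm, h6.gcd_eq, Nat.gcd_one_left]
  have h9 : s (M * r) A ^ Nat.gcd h (r - 1) = 1 := pow_gcd_eq_one.2 ⟨ho1, ho2⟩
  rw [hgcd, pow_one] at h9
  exact h9

/-- the symbol is trivial -/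
theorem vanish (hM : M ≠ 0) (h1 : ∀ a b t, WW M a b → s (b + t * (M * a)) a = s b a)
    (h2 : ∀ a b t, WW M a b → s b (a + t * b) = s b a)
    (h3 : ∀ a b b', WW M a b → WW M a b' → s (b * b') a = s b a * s b' a)
    (h4 : ∀ a a' b, WW M a b → WW M a' b → s b (a * a') = s b a * s b a')
    (h5 : ∀ b, M ∣ b → s b 1 = 1) (a b : ℤ) (hw : WW M a b) : s b a = 1 := by
  by_cases hb : b = 0
  · subst hb
    have h6 : IsUnit a := isCoprime_zero_right.1 hw.1
    rcases Int.isUnit_iff.1 h6 with rfl | rfl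
    · exact h5 0 (dvd_zero _)
    · have h7 := h1 (-1) 0 (-1) hw
      rw [← h7]
      have e : (0 : ℤ) + -1 * (M * -1) = M * 1 := by ring
      rw [e]
      exact van_one h2 h5 hw.2.1 1 (Or.inl rfl)
  · -- an odd `a`
    obtain ⟨a1, t1, ha1, hodd⟩ : ∃ a1 t1 : ℤ, a1 = a + t1 * b ∧ a1 % 2 = 1 := by
      by_cases h : a % 2 = 1
      · exact ⟨a, 0, by ring, h⟩
      · refine ⟨a + 1 * b, 1, rfl, ?_⟩
        have h2b : b % 2 = 1 := by
          by_contra hc
          have h6 : (2 : ℤ) ∣ a := Int.dvd_of_emod_eq_zero (by omega)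
          have h7 : (2 : ℤ) ∣ b := Int.dvd_of_emod_eq_zero (by omega)
          have h8 := hw.1.isUnit_of_dvd' h6 h7
          rw [Int.isUnit_iff] at h8
          omega
        omega
    have hco1 : IsCoprime a1 b := by
      rw [ha1]
      exact hw.1.add_mul_right_left t1
    obtain ⟨e, he, he4⟩ : ∃ e : ℤ, (e = 1 ∨ e = -1) ∧ (e * a1) % 4 = 3 := by
      rcases (show a1 % 4 = 1 ∨ a1 % 4 = 3 by omega) with h | h
      · exact ⟨-1, Or.inr rfl, by omega⟩
      · exact ⟨1, Or.inl rfl, by omega⟩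
    have hee : e * e = 1 := by rcases he with rfl | rfl <;> norm_num
    have hbn : b.natAbs ≠ 0 := Int.natAbs_ne_zero.2 hb
    have hco2 : IsCoprime (e * a1) ((4 * b.natAbs : ℕ) : ℤ) := by
      have h6 : IsCoprime a1 ((4 * b.natAbs : ℕ) : ℤ) := by
        push_cast
        apply IsCoprime.mul_right
        · rw [Int.isCoprime_iff_gcd_eq_one]
          have h7 : IsCoprime a1 (2 : ℤ) := by
            rw [isCoprime_comm, Int.isCoprime_iff_gcd_eq_one]
            rcases Int.emod_two_eq_zero_or_one a1 with h8 | h8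
            · omega
            · have h9 : Nat.Coprime 2 a1.natAbs := by
                rw [Nat.coprime_two_left, Nat.odd_iff]
                omega
              exact h9
          have h8 : IsCoprime a1 (4 : ℤ) := by
            have := h7.mul_right h7
            norm_num at this
            exact this
          exact Int.isCoprime_iff_gcd_eq_one.1 h8
        · rcases abs_choice b with h7 | h7 <;> rw [h7]
          · exact hco1
          · exact hco1.neg_right
      have h7 : IsCoprime e ((4 * b.natAbs : ℕ) : ℤ) := by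
        rcases he with rfl | rfl
        · exact isCoprime_one_left
        · exact isCoprime_one_left.neg_left
      exact h7.mul_left h6
    obtain ⟨p, _, hp, hpm⟩ := Nat.forall_exists_prime_gt_and_zmodEq 0
      (mul_ne_zero (by norm_num) hbn) hco2
    have hd : ((4 * b.natAbs : ℕ) : ℤ) ∣ e * a1 - p := (Int.modEq_iff_dvd).1 hpm
    have hd4 : (4 : ℤ) ∣ e * a1 - p := by
      refine dvd_trans ?_ hd
      push_cast
      exact Dvd.intro _ rfl
    have hdb : b ∣ e * a1 - p := by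
      refine dvd_trans ?_ hd
      push_cast
      exact Dvd.dvd.mul_left (by rw [dvd_abs]) _
    have hp4 : p % 4 = 3 := by omega
    obtain ⟨u, hu⟩ := hdb
    obtain ⟨x, hx⟩ := hw.2.2
    have hA : e * p = a + (t1 - e * u) * b := by
      linear_combination (-e) * hu + hee * a1 + ha1
    have hWA : WW M (e * p) b := by
      refine ⟨?_, ?_, hw.2.2⟩
      · rw [hA]
        exact hw.1.add_mul_right_left _
      · have h6 : e * p - 1 = (a - 1) + (t1 - e * u) * b := by rw [hA]; ring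
        rw [h6]
        exact dvd_add hw.2.1 (hw.2.2.mul_left _)
    have h6 := h2 a b (t1 - e * u) hw
    rw [← hA] at h6
    rw [← h6, hx]
    refine van_prime hM h1 h2 h3 h4 h5 p hp hp4 (e * p) ?_ hWA.2.1 x ?_
    · rcases he with rfl | rfl
      · left; ring
      · right; ring
    · have h7 := hWA.1
      rw [hx] at h7
      exact h7.of_mul_right_right

end

end Pool.Agent.K89
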