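import Pool.Agent.FS84.FinalN
import Pool.Agent.TAU.Gen
import Pool.Agent.TAU.Root

/-!
The homomorphism from the amalgam `P = SL_k(ℤ) *_A SL_k(ℤ)` to `SL_k(ℚ)`: the identity on the
first copy and `d ↦ g⁻¹ d g` on the second; its image is `SL_k(ℤ[1/p])`.
-/

set_option autoImplicit false

namespace Pool.Agent.K89

open Pool.Agent.FS84
open Pool.Agent.TAU (SL el IsEl rt_zpow)

/-- the two homomorphisms `c ↦ c` and `d ↦ g⁻¹ d g` to `SL_k(ℚ)` -/
noncomputable def twoQ (n p : ℕ) [NeZero p] :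
    Bool → (Matrix.SpecialLinearGroup (Fin (n + 3)) ℤ →* Matrix.SpecialLinearGroup (Fin (n + 3)) ℚ)
  | false => slQ (n + 3)
  | true => (MulAut.conj (gEl n p)⁻¹).toMonoidHom.comp (slQ (n + 3))

/-- the homomorphism from the amalgam to `SL_k(ℚ)`, `c ↦ c` on the first copy and
`d ↦ g⁻¹ d g` on the second -/
noncomputable def toQ (n p : ℕ) [NeZero p] :
    Amalgam n p →* Matrix.SpecialLinearGroup (Fin (n + 3)) ℚ :=
  Monoid.PushoutI.lift (G := fun _ : Bool => Matrix.SpecialLinearGroup (Fin (n + 3)) ℤ)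
    (twoQ n p) ((slQ (n + 3)).comp (conjA n p).subtype) (by
      intro b
      cases b
      · rfl
      · ext1 c
        change (gEl n p)⁻¹ * slQ (n + 3) (conjHom n p c) * (gEl n p)⁻¹⁻¹ = slQ (n + 3) (c : SL (n + 3))
        have h1 : slQ (n + 3) (conjHom n p c) =
            gEl n p * slQ (n + 3) (c : SL (n + 3)) * (gEl n p)⁻¹ :=
          conjIso_spec (slQ (n + 3)) (slQ_injective (n + 3)) (gEl n p) c
        rw [h1]
        group)

variable (n p : ℕ) [NeZero p]

theorem toQ_false (c : Matrix.SpecialLinearGroup (Fin (n + 3)) ℤ) :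
    toQ n p (amalgIncl n p false c) = slQ (n + 3) c := by
  unfold toQ amalgIncl
  rw [Monoid.PushoutI.lift_of]
  rfl

theorem toQ_true (c : Matrix.SpecialLinearGroup (Fin (n + 3)) ℤ) :
    toQ n p (amalgIncl n p true c) = (gEl n p)⁻¹ * slQ (n + 3) c * gEl n p := by
  unfold toQ amalgIncl
  rw [Monoid.PushoutI.lift_of]
  change (gEl n p)⁻¹ * slQ (n + 3) c * (gEl n p)⁻¹⁻¹ = _
  rw [inv_inv]

theorem amalg_closure : Subgroup.closure {x : Amalgam n p | ∃ (b : Bool) (i j : Fin (n + 3))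
    (h : i ≠ j), x = amalgIncl n p b (Pool.Agent.TAU.el i j h 1)} = ⊤ := by
  obtain ⟨T, hT⟩ : ∃ T : Subgroup (Amalgam n p), T = Subgroup.closure {x : Amalgam n p |
    ∃ (b : Bool) (i j : Fin (n + 3)) (h : i ≠ j),
      x = amalgIncl n p b (Pool.Agent.TAU.el i j h 1)} := ⟨_, rfl⟩
  rw [← hT, eq_top_iff]
  have hincl : ∀ (b : Bool) (g : SL (n + 3)), amalgIncl n p b g ∈ T := by
    intro b g
    have h1 : Subgroup.closure {x : SL (n + 3) | IsEl x} ≤ T.comap (amalgIncl n p b) := by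
      rw [Subgroup.closure_le]
      rintro _ ⟨i, j, h, t, rfl⟩
      have h2 : el i j h t = el i j h 1 ^ t := by rw [rt_zpow, mul_one]
      change amalgIncl n p b (el i j h t) ∈ T
      have h3 : amalgIncl n p b (el i j h 1) ∈ T := by
        rw [hT]
        exact Subgroup.subset_closure ⟨b, i, j, h, rfl⟩
      rw [h2, map_zpow]
      exact T.zpow_mem h3 t
    rw [Pool.Agent.TAU.gen (n + 3) (by omega)] at h1
    exact h1 (Subgroup.mem_top g)
  intro x _
  induction x using Monoid.PushoutI.induction_on with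
  | of i g => exact hincl i g
  | base h =>
    rw [← Monoid.PushoutI.of_apply_eq_base
      (G := fun _ : Bool => Matrix.SpecialLinearGroup (Fin (n + 3)) ℤ) (twoMaps n p) false h]
    exact hincl false _
  | mul x y hx hy => exact Subgroup.mul_mem _ (hx trivial) (hy trivial)

omit [NeZero p] in
theorem dg_pow (hp : (p : ℚ) ≠ 0) (i j : Fin (n + 3)) :
    ∃ a b : ℕ, (p : ℚ) ^ b = dg n p i * (p : ℚ) ^ a / dg n p j := by
  rcases dg_cases n p i with h | h | h <;> rcases dg_cases n p j with h' | h' | h' <;> rw [h, h']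
  · exact ⟨0, 0, by field_simp⟩
  · exact ⟨0, 2, by field_simp⟩
  · exact ⟨0, 1, by field_simp⟩
  · exact ⟨2, 0, by field_simp⟩
  · exact ⟨0, 0, by field_simp⟩
  · exact ⟨1, 0, by field_simp⟩
  · exact ⟨1, 0, by field_simp⟩
  · exact ⟨0, 1, by field_simp⟩
  · exact ⟨0, 0, by field_simp⟩

theorem exists_pair (i j : Fin (n + 3)) (h : i ≠ j) : ∃ (a b : ℕ) (c : conjA n p),
    (c : Matrix.SpecialLinearGroup (Fin (n + 3)) ℤ) = Pool.Agent.TAU.el i j h ((p : ℤ) ^ a) ∧
    conjHom n p c = Pool.Agent.TAU.el i j h ((p : ℤ) ^ b) ∧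
    ∀ s : ℤ, toQ n p (amalgIncl n p true (Pool.Agent.TAU.el i j h s)) =
      tv i j h ((s : ℚ) * (p : ℚ) ^ a / (p : ℚ) ^ b) := by
  have hp : (p : ℚ) ≠ 0 := by exact_mod_cast (NeZero.ne p)
  obtain ⟨a, b, hab⟩ := dg_pow n p hp i j
  have hi := dg_ne_zero n p (NeZero.ne p) i
  have hj := dg_ne_zero n p (NeZero.ne p) j
  have hel : ∀ t : ℤ, slQ (n + 3) (el i j h t) = tv i j h (t : ℚ) :=
    fun t => slQ_tv (n + 3) i j h t
  have h1 : slQ (n + 3) (el i j h ((p : ℤ) ^ b)) =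
      gEl n p * slQ (n + 3) (el i j h ((p : ℤ) ^ a)) * (gEl n p)⁻¹ := by
    rw [hel, hel, gEl_tv]
    congr 1
    push_cast
    exact hab
  refine ⟨a, b, ⟨el i j h ((p : ℤ) ^ a), mem_conjSub.2 ⟨_, h1⟩⟩, rfl, ?_, ?_⟩
  · apply slQ_injective
    exact (conjIso_spec (slQ (n + 3)) (slQ_injective (n + 3)) (gEl n p) _).trans h1.symm
  · intro s
    have h2 := gEl_inv_tv n p i j h (s : ℚ)
    rw [inv_inv] at h2
    rw [toQ_true, hel, h2]
    congr 1
    rw [hab]
    field_simp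

end Pool.Agent.K89
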