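import Pool.Agent.FS84.HNM

/-!
`SL_k(R)` is generated by the elementary matrices, for a domain `R` of characteristic zero in which
every element has an integral multiple in `ℤ`, such as `ℤ[1/p]`.
-/

set_option autoImplicit false

namespace Pool.Agent.K89.EG

open Matrix Pool.Agent.FS84

variable {R : Type} [CommRing R] {k : ℕ}

/-- `SL_k(R)` -/
abbrev SR (k : ℕ) (R : Type) [CommRing R] : Type := Matrix.SpecialLinearGroup (Fin k) R

theorem tl_same (i j : Fin k) (h : i ≠ j) (c : R) (x : SR k R) (b : Fin k) :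
    (tv i j h c * x).1 i b = x.1 i b + c * x.1 j b :=
  Matrix.transvection_mul_apply_same i j b c x.1

theorem tl_ne (i j : Fin k) (h : i ≠ j) (c : R) (x : SR k R) (a b : Fin k) (ha : a ≠ i) :
    (tv i j h c * x).1 a b = x.1 a b :=
  Matrix.transvection_mul_apply_of_ne i j a b ha c x.1

theorem tr_same (i j : Fin k) (h : i ≠ j) (c : R) (x : SR k R) (a : Fin k) :
    (x * tv i j h c).1 a j = x.1 a j + c * x.1 a i :=
  Matrix.mul_transvection_apply_same i j a c x.1

theorem tr_ne (i j : Fin k) (h : i ≠ j) (c : R) (x : SR k R) (a b : Fin k) (hb : b ≠ j) :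
    (x * tv i j h c).1 a b = x.1 a b :=
  Matrix.mul_transvection_apply_of_ne i j a b hb c x.1

/-- `x` lies in the upper left `n × n` block -/
def Bk (n : ℕ) (x : SR k R) : Prop :=
  ∀ i j : Fin k, (n ≤ (i : ℕ) ∨ n ≤ (j : ℕ)) → x.1 i j = (1 : Matrix (Fin k) (Fin k) R) i j

theorem Bk.left {n : ℕ} {x : SR k R} (hx : Bk n x) (i j : Fin k) (h : i ≠ j) (c : R)
    (hi : (i : ℕ) < n) (hj : (j : ℕ) < n) : Bk n (tv i j h c * x) := by
  intro a b hab
  by_cases ha : a = i
  · subst ha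
    have hb : n ≤ (b : ℕ) := by
      rcases hab with h1 | h1
      · omega
      · exact h1
    rw [tl_same, hx a b (Or.inr hb), hx j b (Or.inr hb)]
    have h2 : j ≠ b := by
      intro e
      subst e
      omega
    rw [Matrix.one_apply_ne h2, mul_zero, add_zero]
  · rw [tl_ne _ _ _ _ _ _ _ ha, hx a b hab]

theorem Bk.right {n : ℕ} {x : SR k R} (hx : Bk n x) (i j : Fin k) (h : i ≠ j) (c : R)
    (hi : (i : ℕ) < n) (hj : (j : ℕ) < n) : Bk n (x * tv i j h c) := by
  intro a b hab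
  by_cases hb : b = j
  · subst hb
    have ha : n ≤ (a : ℕ) := by
      rcases hab with h1 | h1
      · exact h1
      · omega
    rw [tr_same, hx a b (Or.inl ha), hx a i (Or.inl ha)]
    have h2 : a ≠ i := by
      intro e
      subst e
      omega
    rw [Matrix.one_apply_ne h2, mul_zero, add_zero]
  · rw [tr_ne _ _ _ _ _ _ _ hb, hx a b hab]

variable (H : Subgroup (Matrix.SpecialLinearGroup (Fin k) R))

/-- the column `l` becomes a multiple of the `l`-th unit vector -/
theorem euclid [IsDomain R] [CharZero R]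
    (hR : ∀ r : R, ∃ (m : ℕ) (z : ℤ), m ≠ 0 ∧ (m : R) * r = z)
    (hH : ∀ (i j : Fin k) (h : i ≠ j) (c : R), tv i j h c ∈ H) {n : ℕ} (l : Fin k)
    (hl : (l : ℕ) < n) (x : SR k R) (hx : Bk n x) :
    ∃ g ∈ H, Bk n (g * x) ∧ ∀ i, i ≠ l → (g * x).1 i l = 0 := by
  classical
  choose m z hm hz using hR
  obtain ⟨m0, hm0⟩ : ∃ m0 : ℕ, m0 = ∏ i, m (x.1 i l) := ⟨_, rfl⟩
  have hm0' : m0 ≠ 0 := by
    rw [hm0]
    exact Finset.prod_ne_zero_iff.2 fun i _ => hm _
  have hm0R : (m0 : R) ≠ 0 := by exact_mod_cast hm0'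
  have hz0 : ∀ i, ∃ w : ℤ, (m0 : R) * x.1 i l = w := by
    intro i
    have h1 : m (x.1 i l) ∣ m0 := by
      rw [hm0]
      exact Finset.dvd_prod_of_mem (fun i => m (x.1 i l)) (Finset.mem_univ i)
    obtain ⟨c, hc⟩ := h1
    refine ⟨c * z (x.1 i l), ?_⟩
    rw [hc]
    push_cast
    rw [mul_comm (m (x.1 i l) : R) (c : R), mul_assoc, hz]
  choose w hw using hz0
  obtain ⟨P, hP⟩ : ∃ P : ℕ → Prop, P = fun s => ∃ g ∈ H, Bk n (g * x) ∧ ∃ u : Fin k → ℤ,
      (∀ i, (m0 : R) * (g * x).1 i l = u i) ∧ s = ∑ i, (u i).natAbs := ⟨_, rfl⟩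
  have hPe : ∃ s, P s := by
    rw [hP]
    exact ⟨_, 1, H.one_mem, by rw [one_mul]; exact hx, w, by rw [one_mul]; exact hw, rfl⟩
  have hmin : ∀ {m : ℕ}, m < Nat.find hPe → ¬ P m := fun h => Nat.find_min hPe h
  have hspec := Nat.find_spec hPe
  obtain ⟨s, hs⟩ : ∃ s, s = Nat.find hPe := ⟨_, rfl⟩
  rw [← hs] at hmin hspec
  rw [hP] at hspec
  obtain ⟨g, hg, hgx, u, hu, hsu⟩ := hspec
  have hstep : ∀ i j : Fin k, (i : ℕ) < n → (j : ℕ) < n → i ≠ j →
      (u j).natAbs ≤ (u i).natAbs → u j = 0 := by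
    intro i j hi hj hij hle
    by_contra h0
    have hc : ∃ c : ℤ, (u i + c * u j).natAbs < (u i).natAbs := by
      rcases le_or_gt 0 (u i) with h1 | h1 <;> rcases le_or_gt 0 (u j) with h2 | h2
      · exact ⟨-1, by omega⟩
      · exact ⟨1, by omega⟩
      · exact ⟨1, by omega⟩
      · exact ⟨-1, by omega⟩
    obtain ⟨c, hc⟩ := hc
    refine hmin (m := ∑ a, (Function.update u i (u i + c * u j) a).natAbs) ?_ ?_
    · rw [hsu]
      apply Finset.sum_lt_sum
      · intro a _
        by_cases ha : a = i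
        · subst ha
          rw [Function.update_self]
          exact hc.le
        · rw [Function.update_of_ne ha]
      · refine ⟨i, Finset.mem_univ i, ?_⟩
        rw [Function.update_self]
        exact hc
    · rw [hP]
      refine ⟨tv i j hij (c : R) * g, H.mul_mem (hH _ _ _ _) hg, ?_, _, ?_, rfl⟩
      · rw [mul_assoc]
        exact hgx.left i j hij (c : R) hi hj
      · intro a
        rw [mul_assoc]
        by_cases ha : a = i
        · subst ha
          rw [tl_same, Function.update_self, mul_add, hu, ← mul_assoc, mul_comm (m0 : R) (c : R),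
            mul_assoc, hu]
          push_cast
          ring
        · rw [tl_ne _ _ _ _ _ _ _ ha, Function.update_of_ne ha, hu]
  have hzero : ∀ i j : Fin k, (i : ℕ) < n → (j : ℕ) < n → i ≠ j → u i = 0 ∨ u j = 0 := by
    intro i j hi hj hij
    rcases le_total (u j).natAbs (u i).natAbs with h | h
    · exact Or.inr (hstep i j hi hj hij h)
    · exact Or.inl (hstep j i hj hi hij.symm h)
  have hent : ∀ i, u i = 0 → (g * x).1 i l = 0 := by
    intro i hi
    have h1 := hu i
    rw [hi, Int.cast_zero] at h1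
    exact (mul_eq_zero.1 h1).resolve_left hm0R
  have hout : ∀ i : Fin k, n ≤ (i : ℕ) → i ≠ l → (g * x).1 i l = 0 := by
    intro i hi hil
    rw [hgx i l (Or.inl hi), Matrix.one_apply_ne hil]
  by_cases hlz : ∀ i : Fin k, (i : ℕ) < n → i ≠ l → u i = 0
  · refine ⟨g, hg, hgx, fun i hi => ?_⟩
    by_cases hin : (i : ℕ) < n
    · exact hent i (hlz i hin hi)
    · exact hout i (by omega) hi
  · push Not at hlz
    obtain ⟨i0, hi0, hi0l, hi0u⟩ := hlz
    have hothers : ∀ i : Fin k, (i : ℕ) < n → i ≠ i0 → u i = 0 := fun i hi hne =>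
      (hzero i i0 hi hi0 hne).resolve_right hi0u
    have hl0 : (g * x).1 l l = 0 := hent l (hothers l hl (Ne.symm hi0l))
    refine ⟨tv i0 l hi0l (-1) * (tv l i0 hi0l.symm 1 * g),
      H.mul_mem (hH _ _ _ _) (H.mul_mem (hH _ _ _ _) hg), ?_, ?_⟩
    · rw [mul_assoc, mul_assoc]
      exact (hgx.left l i0 _ _ hl hi0).left i0 l _ _ hi0 hl
    · intro i hi
      rw [mul_assoc, mul_assoc]
      by_cases h1 : i = i0
      · subst h1
        rw [tl_same, tl_same, tl_ne _ _ _ _ _ _ _ hi, hl0]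
        ring
      · rw [tl_ne _ _ _ _ _ _ _ h1, tl_ne _ _ _ _ _ _ _ hi]
        by_cases hin : (i : ℕ) < n
        · exact hent i (hothers i hin h1)
        · exact hout i (by omega) hi

/-- clearing the row `l` -/
theorem rowclear (hH : ∀ (i j : Fin k) (h : i ≠ j) (c : R), tv i j h c ∈ H) {n : ℕ} (l : Fin k)
    (hl : (l : ℕ) < n) (x : SR k R) (hx : Bk n x) (hll : x.1 l l = 1) (T : Finset (Fin k))
    (hT : ∀ i ∈ T, (i : ℕ) < n ∧ i ≠ l) :
    ∃ q ∈ H, Bk n (x * q) ∧ (∀ a b, b ∉ T → (x * q).1 a b = x.1 a b) ∧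
      ∀ b ∈ T, (x * q).1 l b = 0 := by
  classical
  induction T using Finset.induction_on with
  | empty => exact ⟨1, H.one_mem, by rw [mul_one]; exact hx, by simp, by simp⟩
  | insert i T hi ih =>
    obtain ⟨q, hq, hb, h1, h2⟩ := ih (fun j hj => hT j (Finset.mem_insert_of_mem hj))
    have hi' := hT i (Finset.mem_insert_self i T)
    have hlT : l ∉ T := fun h => (hT l (Finset.mem_insert_of_mem h)).2 rfl
    refine ⟨q * tv l i hi'.2.symm (-x.1 l i), H.mul_mem hq (hH _ _ _ _), ?_, ?_, ?_⟩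
    · rw [← mul_assoc]
      exact hb.right l i _ _ hl hi'.1
    · intro a b hab
      rw [Finset.mem_insert, not_or] at hab
      rw [← mul_assoc, tr_ne _ _ _ _ _ _ _ hab.1, h1 a b hab.2]
    · intro b hb'
      rw [← mul_assoc]
      by_cases h : b = i
      · subst h
        rw [tr_same, h1 l b hi, h1 l l hlT, hll]
        ring
      · rw [tr_ne _ _ _ _ _ _ _ h]
        exact h2 b (Finset.mem_of_mem_insert_of_ne hb' h)

/-- from the `n`-block to the `(n - 1)`-block -/
theorem step [IsDomain R] [CharZero R]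
    (hR : ∀ r : R, ∃ (m : ℕ) (z : ℤ), m ≠ 0 ∧ (m : R) * r = z)
    (hH : ∀ (i j : Fin k) (h : i ≠ j) (c : R), tv i j h c ∈ H) {n : ℕ} (hn : 2 ≤ n) (hk : n ≤ k)
    (x : SR k R) (hx : Bk n x) : ∃ g ∈ H, ∃ q ∈ H, Bk (n - 1) (g * x * q) := by
  classical
  obtain ⟨l, hl'⟩ : ∃ l : Fin k, l = ⟨n - 1, by omega⟩ := ⟨_, rfl⟩
  have hlv : (l : ℕ) = n - 1 := by rw [hl']
  have hl : (l : ℕ) < n := by omega
  obtain ⟨o, ho⟩ : ∃ o : Fin k, o = ⟨0, by omega⟩ := ⟨_, rfl⟩
  have hov : (o : ℕ) = 0 := by rw [ho]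
  have hol : o ≠ l := by
    intro e
    have h9 := congrArg Fin.val e
    omega
  obtain ⟨g, hg, hgb, hgz⟩ := euclid H hR hH l hl x hx
  obtain ⟨y, hy⟩ : ∃ y : SR k R, y = g * x := ⟨_, rfl⟩
  rw [← hy] at hgb hgz
  have hd : (y⁻¹).1 l l * y.1 l l = 1 := by
    have h0 : (y⁻¹ * y).1 l l = (1 : SR k R).1 l l := by rw [inv_mul_cancel]
    have h1 : (y⁻¹ * y).1 l l = ∑ c, (y⁻¹).1 l c * y.1 c l := rfl
    have h2 : ∑ c, (y⁻¹).1 l c * y.1 c l = (y⁻¹).1 l l * y.1 l l := by
      apply Finset.sum_eq_single l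
      · intro c _ hc
        rw [hgz c hc, mul_zero]
      · intro h
        exact absurd (Finset.mem_univ l) h
    rw [← h2, ← h1, h0]
    exact Matrix.one_apply_eq l
  obtain ⟨y3, hy3⟩ : ∃ y3 : SR k R, y3 = tv o l hol (-1) * (tv l o hol.symm (1 - y.1 l l) *
    (tv o l hol ((y⁻¹).1 l l) * y)) := ⟨_, rfl⟩
  have hb3 : Bk n y3 := by
    rw [hy3]
    exact ((hgb.left o l _ _ (by omega) hl).left l o _ _ hl (by omega)).left o l _ _ (by omega) hl
  have h3l : y3.1 l l = 1 := by
    rw [hy3, tl_ne _ _ _ _ _ _ _ hol.symm, tl_same, tl_ne _ _ _ _ _ _ _ hol.symm, tl_same,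
      hgz o hol, hd]
    ring
  have h3c : ∀ i, i ≠ l → y3.1 i l = 0 := by
    intro i hi
    by_cases hio : i = o
    · subst hio
      rw [hy3, tl_same, tl_ne _ _ _ _ _ _ _ hol, tl_same, tl_same, tl_same,
        tl_ne _ _ _ _ _ _ _ hol.symm, hgz i hol, hd]
      ring
    · rw [hy3, tl_ne _ _ _ _ _ _ _ hio, tl_ne _ _ _ _ _ _ _ hi, tl_ne _ _ _ _ _ _ _ hio, hgz i hi]
  obtain ⟨T, hT⟩ : ∃ T : Finset (Fin k), T = Finset.univ.filter fun i : Fin k => (i : ℕ) < n - 1 :=
    ⟨_, rfl⟩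
  have hTm : ∀ i, i ∈ T ↔ (i : ℕ) < n - 1 := by
    intro i
    rw [hT, Finset.mem_filter]
    exact ⟨fun h => h.2, fun h => ⟨Finset.mem_univ _, h⟩⟩
  obtain ⟨q, hq, hqb, hq1, hq2⟩ := rowclear H hH l hl y3 hb3 h3l T (by
    intro i hi
    rw [hTm] at hi
    refine ⟨by omega, ?_⟩
    intro e
    rw [e] at hi
    omega)
  refine ⟨tv o l hol (-1) * (tv l o hol.symm (1 - y.1 l l) * (tv o l hol ((y⁻¹).1 l l) * g)),
    H.mul_mem (hH _ _ _ _) (H.mul_mem (hH _ _ _ _) (H.mul_mem (hH _ _ _ _) hg)), q, hq, ?_⟩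
  have e : tv o l hol (-1) * (tv l o hol.symm (1 - y.1 l l) *
      (tv o l hol ((y⁻¹).1 l l) * g)) * x = y3 := by
    rw [hy3, hy]
    group
  rw [e]
  have hlT : l ∉ T := by
    rw [hTm]
    omega
  intro i j hij
  by_cases hc : n ≤ (i : ℕ) ∨ n ≤ (j : ℕ)
  · exact hqb i j hc
  · rw [not_or] at hc
    by_cases hj : j = l
    · subst hj
      rw [hq1 i j hlT]
      by_cases hi : i = j
      · rw [hi, h3l, Matrix.one_apply_eq]
      · rw [h3c i hi, Matrix.one_apply_ne hi]
    · have hi : i = l := by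
        apply Fin.ext
        have h5 : (j : ℕ) ≠ (l : ℕ) := fun h => hj (Fin.ext h)
        omega
      have hjT : j ∈ T := by
        rw [hTm]
        have h5 : (j : ℕ) ≠ (l : ℕ) := fun h => hj (Fin.ext h)
        omega
      rw [hi, hq2 j hjT, Matrix.one_apply_ne (Ne.symm hj)]

theorem mem_of_Bk [IsDomain R] [CharZero R]
    (hR : ∀ r : R, ∃ (m : ℕ) (z : ℤ), m ≠ 0 ∧ (m : R) * r = z)
    (hH : ∀ (i j : Fin k) (h : i ≠ j) (c : R), tv i j h c ∈ H) (n : ℕ) :
    1 ≤ n → n ≤ k → ∀ x : SR k R, Bk n x → x ∈ H := by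
  classical
  induction n with
  | zero => intro h; omega
  | succ n ih =>
    intro hn hk x hx
    by_cases h : n = 0
    · subst h
      obtain ⟨o, ho⟩ : ∃ o : Fin k, o = ⟨0, by omega⟩ := ⟨_, rfl⟩
      have hdiag : x.1 = Matrix.diagonal (fun i => if i = o then x.1 o o else 1) := by
        ext i j
        by_cases hij : i = j
        · subst hij
          rw [Matrix.diagonal_apply_eq]
          by_cases hi : i = o
          · rw [if_pos hi, hi]
          · rw [if_neg hi, hx i i (Or.inl ?_), Matrix.one_apply_eq]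
            have h5 : (i : ℕ) ≠ 0 := by
              intro h6
              apply hi
              rw [ho]
              exact Fin.ext h6
            omega
        · rw [Matrix.diagonal_apply_ne _ hij]
          have h5 : 1 ≤ (i : ℕ) ∨ 1 ≤ (j : ℕ) := by
            by_contra h6
            apply hij
            apply Fin.ext
            omega
          rw [hx i j (by simpa using h5), Matrix.one_apply_ne hij]
      have hdet : x.1 o o = 1 := by
        have h1 := x.2
        rw [hdiag, Matrix.det_diagonal, Finset.prod_ite_eq' Finset.univ o,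
          if_pos (Finset.mem_univ o)] at h1
        simpa using h1
      have hx1 : x = 1 := by
        apply Subtype.ext
        rw [hdiag, hdet]
        simp
      rw [hx1]
      exact H.one_mem
    · obtain ⟨g, hg, q, hq, hb⟩ := step H hR hH (n := n + 1) (by omega) hk x hx
      have h1 := ih (by omega) (by omega) _ hb
      have e : x = g⁻¹ * (g * x * q) * q⁻¹ := by group
      rw [e]
      exact H.mul_mem (H.mul_mem (H.inv_mem hg) h1) (H.inv_mem hq)

/-- a subgroup of `SL_k(R)` with all the elementary matrices is everything -/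
theorem eq_top [IsDomain R] [CharZero R]
    (hR : ∀ r : R, ∃ (m : ℕ) (z : ℤ), m ≠ 0 ∧ (m : R) * r = z) (hk : 1 ≤ k)
    (hH : ∀ (i j : Fin k) (h : i ≠ j) (c : R), tv i j h c ∈ H) : H = ⊤ := by
  rw [eq_top_iff]
  intro x _
  refine mem_of_Bk H hR hH k hk le_rfl x ?_
  intro i j h
  exfalso
  have h1 := i.2
  have h2 := j.2
  omega

end Pool.Agent.K89.EG
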