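import Pool.Agent.K89.Sus
import Pool.Agent.K89.ToQ
import Pool.Agent.TAU.Root

/-!
The amalgam `P = SL_k(ℤ) *_A SL_k(ℤ)`: for every homomorphism `q` from `P` to a finite group, the
image of the kernel of `P → SL_k(ℚ)` is central in the image of `P`.
-/

set_option autoImplicit false

namespace Pool.Agent.K89

open Pool.Agent.TAU (SL el IsEl rt_mul rt_zero rt_inv rt_pow rt_zpow rt_rel)
open Pool.Agent.FS84

/-! ### reduction modulo `M` -/

/-- the matrix `x` over `ℤ[1/p]` is `h` modulo `M` -/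
def Rel (p M : ℕ) {k : ℕ} (x : Matrix.SpecialLinearGroup (Fin k) ℚ) (h : SL k) : Prop :=
  ∃ (s : ℕ) (Z : Matrix (Fin k) (Fin k) ℤ), (∀ a b, (Z a b : ℚ) = (p : ℚ) ^ s * x.1 a b) ∧
    ∀ a b, (M : ℤ) ∣ Z a b - (p : ℤ) ^ s * h.1 a b

theorem rel_mul {p M k : ℕ} {x y : Matrix.SpecialLinearGroup (Fin k) ℚ} {g h : SL k}
    (h1 : Rel p M x g) (h2 : Rel p M y h) : Rel p M (x * y) (g * h) := by
  obtain ⟨s, Z, e1, d1⟩ := h1
  obtain ⟨r, Y, e2, d2⟩ := h2
  refine ⟨s + r, Z * Y, ?_, ?_⟩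
  · intro a b
    rw [Matrix.mul_apply, Matrix.SpecialLinearGroup.coe_mul, Matrix.mul_apply, Finset.mul_sum]
    push_cast
    apply Finset.sum_congr rfl
    intro c _
    rw [e1, e2, pow_add]
    ring
  · intro a b
    have e : (g * h).1 a b = ∑ c, g.1 a c * h.1 c b := rfl
    rw [Matrix.mul_apply, e, Finset.mul_sum, ← Finset.sum_sub_distrib]
    apply Finset.dvd_sum
    intro c _
    have h3 := dvd_mul_sub (d1 a c) (d2 c b)
    have e3 : (p : ℤ) ^ (s + r) * (g.1 a c * h.1 c b) =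
        (p : ℤ) ^ s * g.1 a c * ((p : ℤ) ^ r * h.1 c b) := by
      rw [pow_add]
      ring
    rw [e3]
    exact h3

theorem rel_slQ (p M : ℕ) {k : ℕ} (c : SL k) : Rel p M (slQ k c) c := by
  refine ⟨0, c.1, ?_, ?_⟩
  · intro a b
    rw [pow_zero, one_mul]
    rfl
  · intro a b
    rw [pow_zero, one_mul, sub_self]
    exact dvd_zero _

theorem rel_tv {p M k : ℕ} (hp : (p : ℚ) ≠ 0) (i j : Fin k) (h : i ≠ j) (s : ℤ) (a b : ℕ) (J : ℤ)
    (hJ : (M : ℤ) ∣ (p : ℤ) ^ b * J - 1) :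
    Rel p M (tv i j h ((s : ℚ) * (p : ℚ) ^ a / (p : ℚ) ^ b)) (el i j h (s * ((p : ℤ) ^ a * J))) := by
  refine ⟨b, (p : ℤ) ^ b • (1 : Matrix (Fin k) (Fin k) ℤ) + Matrix.single i j (s * (p : ℤ) ^ a),
    ?_, ?_⟩
  · intro c d
    change (((p : ℤ) ^ b • (1 : Matrix (Fin k) (Fin k) ℤ) +
      Matrix.single i j (s * (p : ℤ) ^ a)) c d : ℚ) =
      (p : ℚ) ^ b * Matrix.transvection i j ((s : ℚ) * (p : ℚ) ^ a / (p : ℚ) ^ b) c d
    unfold Matrix.transvection
    have hpb : (p : ℚ) ^ b ≠ 0 := pow_ne_zero _ hp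
    rw [Matrix.add_apply, Matrix.add_apply, Matrix.smul_apply, Matrix.one_apply, Matrix.one_apply,
      Matrix.single_apply, Matrix.single_apply]
    split_ifs <;> push_cast <;> field_simp <;> simp
  · intro c d
    change (M : ℤ) ∣ ((p : ℤ) ^ b • (1 : Matrix (Fin k) (Fin k) ℤ) +
      Matrix.single i j (s * (p : ℤ) ^ a)) c d -
      (p : ℤ) ^ b * Matrix.transvection i j (s * ((p : ℤ) ^ a * J)) c d
    unfold Matrix.transvection
    rw [Matrix.add_apply, Matrix.add_apply, Matrix.smul_apply, Matrix.single_apply,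
      Matrix.single_apply, smul_eq_mul, mul_add, add_sub_add_left_eq_sub]
    split_ifs
    · have e : s * (p : ℤ) ^ a - (p : ℤ) ^ b * (s * ((p : ℤ) ^ a * J)) =
          -(s * (p : ℤ) ^ a * ((p : ℤ) ^ b * J - 1)) := by ring
      rw [e]
      exact (hJ.mul_left _).neg_right
    · simp

theorem rel_one_cong {p M k : ℕ} (hpM : Nat.Coprime p M) {h : SL k} (hr : Rel p M 1 h)
    (a b : Fin k) : (M : ℤ) ∣ h.1 a b - (1 : Matrix (Fin k) (Fin k) ℤ) a b := by
  obtain ⟨s, Z, e1, d1⟩ := hr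
  have e2 : Z a b = (p : ℤ) ^ s * (1 : Matrix (Fin k) (Fin k) ℤ) a b := by
    have h1 := e1 a b
    have h2 : ((1 : Matrix.SpecialLinearGroup (Fin k) ℚ).1 a b : ℚ) =
        (((1 : Matrix (Fin k) (Fin k) ℤ) a b : ℤ) : ℚ) := by
      change (1 : Matrix (Fin k) (Fin k) ℚ) a b = _
      rw [Matrix.one_apply, Matrix.one_apply]
      split_ifs <;> simp
    rw [h2] at h1
    exact_mod_cast h1
  have h3 := d1 a b
  rw [e2, ← mul_sub] at h3
  have hco : IsCoprime (M : ℤ) ((p : ℤ) ^ s) := by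
    have h4 : IsCoprime (p : ℤ) (M : ℤ) := Nat.isCoprime_iff_coprime.2 hpM
    exact (h4.symm).pow_right
  have h5 := hco.dvd_of_dvd_mul_left h3
  have e6 : h.1 a b - (1 : Matrix (Fin k) (Fin k) ℤ) a b =
      -((1 : Matrix (Fin k) (Fin k) ℤ) a b - h.1 a b) := by ring
  rw [e6]
  exact h5.neg_right

/-! ### elementary matrices in a normal subgroup -/

theorem el_step_row {k : ℕ} (N : Subgroup (SL k)) [hN : N.Normal] (i j l : Fin k) (hij : i ≠ j)
    (hjl : j ≠ l) (hil : i ≠ l) (s : ℤ) (h : el i j hij s ∈ N) : el i l hil s ∈ N := by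
  have h1 := rt_rel i j l hij hjl hil s 1
  rw [mul_one] at h1
  have e : el i l hil s = el i j hij s *
      (el j l hjl 1 * (el i j hij s)⁻¹ * (el j l hjl 1)⁻¹) := by
    have e2 : el i j hij s * (el j l hjl 1 * (el i j hij s)⁻¹ * (el j l hjl 1)⁻¹) =
        (el i j hij s * el j l hjl 1) * (el i j hij s)⁻¹ * (el j l hjl 1)⁻¹ := by group
    rw [e2, h1]
    group
  rw [e]
  exact N.mul_mem h (hN.conj_mem _ (N.inv_mem h) _)

theorem el_step_col {k : ℕ} (N : Subgroup (SL k)) [hN : N.Normal] (i j l : Fin k) (hij : i ≠ j)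
    (hjl : j ≠ l) (hil : i ≠ l) (s : ℤ) (h : el j l hjl s ∈ N) : el i l hil s ∈ N := by
  have h1 := rt_rel i j l hij hjl hil 1 s
  rw [one_mul] at h1
  have e : el i l hil s = (el i j hij 1 * el j l hjl s * (el i j hij 1)⁻¹) *
      (el j l hjl s)⁻¹ := by
    rw [h1]
    group
  rw [e]
  exact N.mul_mem (hN.conj_mem _ h _) (N.inv_mem h)

theorem el_all {k : ℕ} (hk : 3 ≤ k) (N : Subgroup (SL k)) [hN : N.Normal] (s : ℤ) (i0 j0 : Fin k)
    (h0 : i0 ≠ j0) (hs : el i0 j0 h0 s ∈ N) (i j : Fin k) (h : i ≠ j) : el i j h s ∈ N := by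
  -- the row `i0`
  have hrow : ∀ (l : Fin k) (hl : i0 ≠ l), el i0 l hl s ∈ N := by
    intro l hl
    by_cases e : j0 = l
    · subst e
      exact hs
    · exact el_step_row N i0 j0 l h0 e hl s hs
  -- all places outside the column `i0`
  have hcol : ∀ (l m : Fin k) (hlm : l ≠ m), m ≠ i0 → el l m hlm s ∈ N := by
    intro l m hlm hm
    by_cases e : l = i0
    · subst e
      exact hrow m hlm
    · exact el_step_col N l i0 m e (Ne.symm hm) hlm s (hrow m (Ne.symm hm))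
  by_cases hj : j = i0
  · obtain ⟨l, hl⟩ : ∃ l : Fin k, l ∉ ({i, j} : Finset (Fin k)) := by
      by_contra hc
      push Not at hc
      have h1 : (Finset.univ : Finset (Fin k)) ⊆ {i, j} := fun x _ => hc x
      have h2 := Finset.card_le_card h1
      rw [Finset.card_univ, Fintype.card_fin] at h2
      have h3 := Finset.card_le_two (a := i) (b := j)
      omega
    rw [Finset.mem_insert, Finset.mem_singleton, not_or] at hl
    have h1 : el i l (Ne.symm hl.1) s ∈ N := hcol i l _ (fun e => hl.2 (e.trans hj.symm))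
    exact el_step_row N i l j (Ne.symm hl.1) hl.2 h s h1
  · exact hcol i j h hj

/-! ### finite quotients of the amalgam -/

section

variable (n p : ℕ) [NeZero p]

theorem incl_agree (c : conjA n p) :
    amalgIncl n p false (c : SL (n + 3)) = amalgIncl n p true (conjHom n p c) :=
  (Monoid.PushoutI.of_apply_eq_base
    (G := fun _ : Bool => Matrix.SpecialLinearGroup (Fin (n + 3)) ℤ) (twoMaps n p)
      false c).trans (Monoid.PushoutI.of_apply_eq_base
    (G := fun _ : Bool => Matrix.SpecialLinearGroup (Fin (n + 3)) ℤ) (twoMaps n p)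
      true c).symm

theorem tv_eq_el (i j : Fin (n + 3)) (h : i ≠ j) (c : ℤ) : (tv i j h c : SL (n + 3)) = el i j h c :=
  rfl

/-- in a finite quotient the elementary matrices divisible by `M` die, `M` prime to `p` -/
theorem kill {Q : Type} [Group Q] [Finite Q] (q : Amalgam n p →* Q) :
    ∃ M : ℕ, Nat.Coprime p M ∧ ∀ (b : Bool) (i j : Fin (n + 3)) (h : i ≠ j) (x : ℤ),
      q (amalgIncl n p b (el i j h (M * x))) = 1 := by
  classical
  have : Fintype Q := Fintype.ofFinite Q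
  obtain ⟨e, M, hM, hM0, heM⟩ := prime_part p (Fintype.card Q) Fintype.card_ne_zero
  refine ⟨M, hM, ?_⟩
  obtain ⟨L, hL⟩ : ∃ L : Q →* Equiv.Perm Q, ∀ x v, L x v = x * v :=
    ⟨MulAction.toPermHom Q Q, fun _ _ => rfl⟩
  have hpow : ∀ x : Q, (L x) ^ (p ^ e * M) = 1 := by
    intro x
    obtain ⟨c, hc⟩ := heM
    rw [← map_pow, hc, pow_mul, pow_card_eq_one, one_pow, map_one]
  obtain ⟨r₁, hr₁⟩ : ∃ r : SL (n + 3) →* Equiv.Perm Q,
      r = L.comp (q.comp (amalgIncl n p false)) := ⟨_, rfl⟩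
  obtain ⟨r₂, hr₂⟩ : ∃ r : SL (n + 3) →* Equiv.Perm Q,
      r = L.comp (q.comp (amalgIncl n p true)) := ⟨_, rfl⟩
  have e₁ : ∀ c, r₁ c = L (q (amalgIncl n p false c)) := fun c => by rw [hr₁]; rfl
  have e₂ : ∀ c, r₂ c = L (q (amalgIncl n p true c)) := fun c => by rw [hr₂]; rfl
  have hp0 : (p : ℚ) ≠ 0 := by exact_mod_cast (NeZero.ne p)
  -- the relations
  have hab : el 0 2 (ne02 n) 1 * el 1 2 (ne12 n) 1 = el 1 2 (ne12 n) 1 * el 0 2 (ne02 n) 1 :=
    tv_comm_of 0 2 1 2 (ne02 n) (ne12 n) (ne12 n).symm (ne02 n).symm 1 1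
  have h1a : el 1 0 (ne01 n).symm 1 * el 0 2 (ne02 n) 1 =
      el 0 2 (ne02 n) 1 * el 1 2 (ne12 n) 1 * el 1 0 (ne01 n).symm 1 := by
    rw [hab]
    exact tv_twist 1 0 2 (ne01 n).symm (ne02 n) (ne12 n)
  have h1b : el 1 0 (ne01 n).symm 1 * el 1 2 (ne12 n) 1 =
      el 1 2 (ne12 n) 1 * el 1 0 (ne01 n).symm 1 :=
    tv_comm_of 1 0 1 2 (ne01 n).symm (ne12 n) (ne01 n) (ne12 n).symm 1 1
  have h2b : el 0 1 (ne01 n) 1 * el 1 2 (ne12 n) 1 =
      el 0 2 (ne02 n) 1 * el 1 2 (ne12 n) 1 * el 0 1 (ne01 n) 1 :=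
    tv_twist 0 1 2 (ne01 n) (ne12 n) (ne02 n)
  have h2a : el 0 1 (ne01 n) 1 * el 0 2 (ne02 n) 1 = el 0 2 (ne02 n) 1 * el 0 1 (ne01 n) 1 :=
    tv_comm_of 0 1 0 2 (ne01 n) (ne02 n) (ne01 n).symm (ne02 n).symm 1 1
  -- the two elements of `A`
  have hal : slQ (n + 3) (tv 0 2 (ne02 n) (1 : ℤ) ^ p) =
      gEl n p * slQ (n + 3) (tv 0 2 (ne02 n) (1 : ℤ)) * (gEl n p)⁻¹ := by
    rw [tv_pow, slQ_tv, slQ_tv, gEl_tv, dg_zero, dg_two]
    congr 1
    push_cast
    ring
  have hbe : slQ (n + 3) (tv 1 2 (ne12 n) (1 : ℤ)) =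
      gEl n p * slQ (n + 3) (tv 1 2 (ne12 n) (1 : ℤ) ^ p) * (gEl n p)⁻¹ := by
    rw [tv_pow, slQ_tv, slQ_tv, gEl_tv, dg_one, dg_two]
    congr 1
    push_cast
    rw [mul_one, inv_mul_cancel₀ hp0, div_one]
  have hA : q (amalgIncl n p false (el 0 2 (ne02 n) 1)) =
      q (amalgIncl n p true (el 0 2 (ne02 n) 1 ^ p)) := by
    have h1 := incl_agree n p ⟨tv 0 2 (ne02 n) (1 : ℤ), mem_conjSub.2 ⟨_, hal⟩⟩
    have h2 : conjHom n p ⟨tv 0 2 (ne02 n) (1 : ℤ), mem_conjSub.2 ⟨_, hal⟩⟩ =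
        tv 0 2 (ne02 n) (1 : ℤ) ^ p := by
      apply slQ_injective
      exact (conjIso_spec (slQ (n + 3)) (slQ_injective (n + 3)) (gEl n p) _).trans hal.symm
    rw [h2] at h1
    exact congrArg q h1
  have hB : q (amalgIncl n p false (el 1 2 (ne12 n) 1 ^ p)) =
      q (amalgIncl n p true (el 1 2 (ne12 n) 1)) := by
    have h1 := incl_agree n p ⟨tv 1 2 (ne12 n) (1 : ℤ) ^ p, mem_conjSub.2 ⟨_, hbe⟩⟩
    have h2 : conjHom n p ⟨tv 1 2 (ne12 n) (1 : ℤ) ^ p, mem_conjSub.2 ⟨_, hbe⟩⟩ =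
        tv 1 2 (ne12 n) (1 : ℤ) := by
      apply slQ_injective
      exact (conjIso_spec (slQ (n + 3)) (slQ_injective (n + 3)) (gEl n p) _).trans hbe.symm
    rw [h2] at h1
    exact congrArg q h1
  obtain ⟨D, hD⟩ : ∃ D : Finset (Q × Q), D = Finset.univ.image fun x => (x, x) := ⟨_, rfl⟩
  have hDm : ∀ d, d ∈ D ↔ d.1 = d.2 := by
    intro d
    rw [hD, Finset.mem_image]
    constructor
    · rintro ⟨x, _, rfl⟩
      rfl
    · intro h
      exact ⟨d.1, Finset.mem_univ _, Prod.ext rfl h⟩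
  have hDc : D.card = Fintype.card Q := by
    rw [hD, Finset.card_image_of_injective _ (fun x y h => (Prod.ext_iff.1 h).1),
      Finset.card_univ]
  have hcnt := hnn_count (r₁ (el 0 2 (ne02 n) 1)) (r₁ (el 1 2 (ne12 n) 1))
    (r₁ (el 1 0 (ne01 n).symm 1)) (r₁ (el 0 1 (ne01 n) 1))
    (r₂ (el 0 2 (ne02 n) 1)) (r₂ (el 1 2 (ne12 n) 1))
    (r₂ (el 1 0 (ne01 n).symm 1)) (r₂ (el 0 1 (ne01 n) 1))
    (by rw [← map_mul, ← map_mul, hab]) (by rw [← map_mul, ← map_mul, ← map_mul, h1a])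
    (by rw [← map_mul, ← map_mul, h1b]) (by rw [← map_mul, ← map_mul, ← map_mul, h2b])
    (by rw [← map_mul, ← map_mul, h2a])
    (by rw [← map_mul, ← map_mul, hab]) (by rw [← map_mul, ← map_mul, ← map_mul, h1a])
    (by rw [← map_mul, ← map_mul, h1b]) (by rw [← map_mul, ← map_mul, ← map_mul, h2b])
    (by rw [← map_mul, ← map_mul, h2a]) p M e
    (by rw [e₁]; exact hpow _) (by rw [e₁]; exact hpow _)
    (by rw [e₂]; exact hpow _) (by rw [e₂]; exact hpow _)
    Finset.univ (by simp) (by simp) Finset.univ (by simp) (by simp) D (by simp)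
    (by
      intro d hd d' hd' h
      rw [hDm] at hd hd'
      exact Prod.ext h (hd.symm.trans (h.trans hd')))
    (by
      intro d hd d' hd' h
      rw [hDm] at hd hd'
      exact Prod.ext (hd.trans (h.trans hd'.symm)) h)
    (by
      intro d hd
      rw [hDm] at hd ⊢
      change r₁ (el 0 2 (ne02 n) 1) d.1 = ((r₂ (el 0 2 (ne02 n) 1)) ^ p) d.2
      rw [← map_pow, e₁, e₂, hA, hd])
    (by
      intro d hd
      rw [hDm] at hd ⊢
      change ((r₁ (el 1 2 (ne12 n) 1)) ^ p) d.1 = r₂ (el 1 2 (ne12 n) 1) d.2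
      rw [← map_pow, e₁, e₂, hB, hd])
  rw [hDc, Finset.card_univ] at hcnt
  have h0 : (Finset.univ.filter fun v => ¬ (((r₂ (el 0 2 (ne02 n) 1)) ^ M) v = v ∧
      ((r₂ (el 1 2 (ne12 n) 1)) ^ M) v = v)).card = 0 := by omega
  have h1 : ((r₂ (el 0 2 (ne02 n) 1)) ^ M) 1 = 1 := by
    rw [Finset.card_eq_zero, Finset.filter_eq_empty_iff] at h0
    exact (not_not.1 (h0 (Finset.mem_univ 1))).1
  rw [← map_pow, e₂, hL, mul_one, rt_pow, mul_one] at h1
  -- all elementary matrices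
  have hT : ∀ (i j : Fin (n + 3)) (h : i ≠ j), el i j h (M : ℤ) ∈
      (q.comp (amalgIncl n p true)).ker :=
    el_all (by omega) _ _ 0 2 (ne02 n) h1
  have hT2 : ∀ (i j : Fin (n + 3)) (h : i ≠ j) (x : ℤ),
      q (amalgIncl n p true (el i j h (M * x))) = 1 := by
    intro i j h x
    have h2 := Subgroup.zpow_mem _ (hT i j h) x
    rw [rt_zpow, mul_comm x] at h2
    exact h2
  have hF0 : el 0 2 (ne02 n) (M : ℤ) ∈ (q.comp (amalgIncl n p false)).ker := by
    rw [MonoidHom.mem_ker]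
    change q (amalgIncl n p false (el 0 2 (ne02 n) (M : ℤ))) = 1
    have h2 : el 0 2 (ne02 n) (M : ℤ) = el 0 2 (ne02 n) 1 ^ M := by rw [rt_pow, mul_one]
    rw [h2, map_pow, map_pow, hA, ← map_pow, ← map_pow, ← pow_mul, rt_pow]
    have h3 := hT2 0 2 (ne02 n) p
    have e4 : ((p * M : ℕ) : ℤ) * 1 = (M : ℤ) * p := by push_cast; ring
    rw [e4]
    exact h3
  have hF : ∀ (i j : Fin (n + 3)) (h : i ≠ j), el i j h (M : ℤ) ∈
      (q.comp (amalgIncl n p false)).ker :=
    el_all (by omega) _ _ 0 2 (ne02 n) hF0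
  intro b i j h x
  cases b
  · have h2 := Subgroup.zpow_mem _ (hF i j h) x
    rw [rt_zpow, mul_comm x] at h2
    exact h2
  · exact hT2 i j h x

/-- every element of the amalgam acts in a finite quotient as an element of the first copy which
is the same modulo `M` -/
theorem exists_rep {Q : Type} [Group Q] (q : Amalgam n p →* Q) (M : ℕ)
    (hM : Nat.Coprime p M) (hk : ∀ (b : Bool) (i j : Fin (n + 3)) (h : i ≠ j) (x : ℤ),
      q (amalgIncl n p b (el i j h (M * x))) = 1) (w : Amalgam n p) :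
    ∃ h : SL (n + 3), Rel p M (toQ n p w) h ∧ q w = q (amalgIncl n p false h) := by
  have hp0 : (p : ℚ) ≠ 0 := by exact_mod_cast (NeZero.ne p)
  have hgen : ∀ (b : Bool) (i j : Fin (n + 3)) (h : i ≠ j) (s : ℤ),
      ∃ g : SL (n + 3), Rel p M (toQ n p (amalgIncl n p b (el i j h s))) g ∧
        q (amalgIncl n p b (el i j h s)) = q (amalgIncl n p false g) := by
    intro b i j h s
    cases b
    · refine ⟨el i j h s, ?_, rfl⟩
      rw [toQ_false]
      exact rel_slQ p M _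
    · obtain ⟨a, b, c, hc, hφ, hQ⟩ := exists_pair n p i j h
      obtain ⟨J, v, hJ⟩ : ∃ J v : ℤ, J * (p : ℤ) ^ b + v * (M : ℤ) = 1 := by
        have h4 : IsCoprime (p : ℤ) (M : ℤ) := Nat.isCoprime_iff_coprime.2 hM
        exact h4.pow_left
      have hJ' : (M : ℤ) ∣ (p : ℤ) ^ b * J - 1 := ⟨-v, by linarith⟩
      refine ⟨el i j h (s * ((p : ℤ) ^ a * J)), ?_, ?_⟩
      · rw [hQ]
        exact rel_tv hp0 i j h s a b J hJ'
      · have e1 : el i j h s = conjHom n p (c ^ (s * J)) * el i j h ((M : ℤ) * (s * v)) := by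
          rw [map_zpow, hφ, rt_zpow, rt_mul]
          congr 1
          linear_combination (-s) * hJ
        have e2 : el i j h (s * ((p : ℤ) ^ a * J)) = ((c ^ (s * J) : conjA n p) : SL (n + 3)) := by
          rw [Subgroup.coe_zpow, hc, rt_zpow]
          congr 1
          ring
        rw [e1, map_mul, map_mul, hk, mul_one, ← incl_agree, e2]
  have hw : w ∈ (Subgroup.closure {x : Amalgam n p | ∃ (b : Bool) (i j : Fin (n + 3))
      (h : i ≠ j), x = amalgIncl n p b (el i j h 1)}).toSubmonoid := by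
    rw [amalg_closure]
    trivial
  rw [Subgroup.closure_toSubmonoid] at hw
  induction hw using Submonoid.closure_induction with
  | mem x hx =>
    rcases hx with ⟨b, i, j, h, rfl⟩ | hx
    · exact hgen b i j h 1
    · obtain ⟨b, i, j, h, hx⟩ := hx
      have e : x = amalgIncl n p b (el i j h (-1)) := by
        rw [← rt_inv, map_inv, ← hx, inv_inv]
      rw [e]
      exact hgen b i j h (-1)
  | one =>
    refine ⟨1, ?_, by rw [map_one, map_one, map_one]⟩
    rw [map_one, ← map_one (slQ (n + 3))]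
    exact rel_slQ p M 1
  | mul x y _ _ hx hy =>
    obtain ⟨g, hg, eg⟩ := hx
    obtain ⟨h, hh, eh⟩ := hy
    refine ⟨g * h, ?_, ?_⟩
    · rw [map_mul]
      exact rel_mul hg hh
    · rw [map_mul, map_mul, map_mul, eg, eh]

open Classical in
theorem isLen_ind {G : Type} [Group G] (N : Subgroup G) [hN : N.Normal] :
    IsLen fun g : G => if g ∈ N then (0 : ℝ) else 1 where
  one := by rw [if_pos N.one_mem]
  mul g h := by
    by_cases h1 : g ∈ N
    · by_cases h2 : h ∈ N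
      · rw [if_pos h1, if_pos h2, if_pos (N.mul_mem h1 h2)]
        simp
      · rw [if_pos h1, if_neg h2]
        split_ifs <;> simp
    · rw [if_neg h1]
      split_ifs <;> simp
  inv g := by simp only [N.inv_mem_iff]
  conj g h := by
    have e : h * g * h⁻¹ ∈ N ↔ g ∈ N := by
      constructor
      · intro h1
        have h2 := hN.conj_mem _ h1 h⁻¹
        have e2 : h⁻¹ * (h * g * h⁻¹) * h⁻¹⁻¹ = g := by group
        rwa [e2] at h2
      · intro h1
        exact hN.conj_mem _ h1 h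
    simp only [e]

/-- THEOREM K': the kernel of `P → SL_k(ℚ)` is central in every finite quotient of `P` -/
theorem central_finite {Q : Type} [Group Q] [Finite Q] (q : Amalgam n p →* Q)
    (w y : Amalgam n p) (hw : toQ n p w = 1) : q (w * y) = q (y * w) := by
  classical
  obtain ⟨M, hM, hk⟩ := kill n p q
  obtain ⟨g, hg, eg⟩ := exists_rep n p q M hM hk w
  obtain ⟨h, _, eh⟩ := exists_rep n p q M hM hk y
  rw [hw] at hg
  have hcong := rel_one_cong hM hg
  obtain ⟨C, hC⟩ := suslin (n + 3) (by omega)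
  have h1 := hC _ (isLen_ind (q.comp (amalgIncl n p false)).ker) 0 M (by
    intro i j h x
    have h2 : el i j h ((M : ℤ) * x) ∈ (q.comp (amalgIncl n p false)).ker := hk false i j h x
    rw [if_pos h2]) g hcong
  have h3 : ∀ (i j : Fin (n + 3)) (h : i ≠ j) (r : ℤ),
      q (amalgIncl n p false g) * q (amalgIncl n p false (el i j h r)) =
      q (amalgIncl n p false (el i j h r)) * q (amalgIncl n p false g) := by
    intro i j h r
    have h4 := h1 i j h r
    rw [mul_zero] at h4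
    by_cases h5 : g * el i j h r * (el i j h r * g)⁻¹ ∈ (q.comp (amalgIncl n p false)).ker
    · have h6 : q (amalgIncl n p false (g * el i j h r * (el i j h r * g)⁻¹)) = 1 := h5
      rw [map_mul, map_mul, map_inv, map_inv, mul_inv_eq_one, map_mul, map_mul, map_mul,
        map_mul] at h6
      exact h6
    · rw [if_neg h5] at h4
      linarith
  have h7 : Subgroup.closure {x : SL (n + 3) | IsEl x} ≤
      (Subgroup.centralizer {q (amalgIncl n p false g)}).comap
        (q.comp (amalgIncl n p false)) := by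
    rw [Subgroup.closure_le]
    rintro _ ⟨i, j, h, r, rfl⟩
    change q (amalgIncl n p false (el i j h r)) ∈ Subgroup.centralizer {q (amalgIncl n p false g)}
    rw [Subgroup.mem_centralizer_singleton_iff]
    exact (h3 i j h r).symm
  rw [Pool.Agent.TAU.gen (n + 3) (by omega)] at h7
  have h8 : q (amalgIncl n p false h) ∈ Subgroup.centralizer {q (amalgIncl n p false g)} :=
    h7 (Subgroup.mem_top h)
  rw [Subgroup.mem_centralizer_singleton_iff] at h8
  rw [map_mul, map_mul, eg, eh]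
  exact h8.symm

/-- the finite residual of `P` contains the commutators of the kernel of `P → SL_k(ℚ)` with `P` -/
theorem comm_residual (w y : Amalgam n p) (hw : toQ n p w = 1)
    (N : Subgroup (Amalgam n p)) [N.FiniteIndex] : w * y * (y * w)⁻¹ ∈ N := by
  have h1 : Finite (Amalgam n p ⧸ N.normalCore) := Subgroup.finite_quotient_of_finiteIndex
  have h2 := central_finite n p (QuotientGroup.mk' N.normalCore) w y hw
  apply Subgroup.normalCore_le N
  rw [← QuotientGroup.eq_one_iff]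
  change QuotientGroup.mk' N.normalCore (w * y * (y * w)⁻¹) = 1
  rw [map_mul (QuotientGroup.mk' N.normalCore), map_inv, h2, mul_inv_cancel]

end

end Pool.Agent.K89
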