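import Pool.Agent.K89.Csp
import Pool.Agent.K89.Res

/-!
Every homomorphism from the amalgam `P = SL_k(ℤ) *_A SL_k(ℤ)` to a finite group kills the kernel
of `P → SL_k(ℚ)`.
-/

set_option autoImplicit false

namespace Pool.Agent.K89

open Pool.Agent.TAU (SL el)
open Pool.Agent.FS84

/-- THEOREM K'': finite quotients of `P` factor through `P → SL_k(ℤ[1/p])` -/
theorem kill_ker (n p : ℕ) [NeZero p] {Q : Type} [Group Q] [Finite Q] (q : Amalgam n p →* Q)
    (w : Amalgam n p) (hw : toQ n p w = 1) : q w = 1 := by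
  obtain ⟨M, hM, hk⟩ := kill n p q
  obtain ⟨g, hg, eg⟩ := exists_rep n p q M hM hk w
  rw [hw] at hg
  rw [eg]
  exact csp (n + 3) (by omega) M (q.comp (amalgIncl n p false)).ker
    (fun i j h x => hk false i j h x) g (rel_one_cong hM hg)

end Pool.Agent.K89
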