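import Mathlib
import Pool.Agent.TAU.M2

/-!
Reduction of a matrix in `SL_k(ℤ)` which is `1` modulo `M` to the upper left `2 × 2` block, by
elements of a normal subgroup which contains the elementary matrices `1 + M x e_ij`.
-/

set_option autoImplicit false

namespace Pool.Agent.K89

open Pool.Agent.TAU (SL el InBlock)
open Pool.Agent.TAU.M2
open Matrix Finset

variable {k : ℕ}

/-- congruent to `1` modulo `M` -/
def CM (M : ℤ) (x : SL k) : Prop := ∀ a b : Fin k, M ∣ x.1 a b - (1 : Matrix (Fin k) (Fin k) ℤ) a b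

theorem CM.mul {M : ℤ} {x y : SL k} (hx : CM M x) (hy : CM M y) : CM M (x * y) := by
  intro a b
  have h1 : (x * y).1 a b - (1 : Matrix (Fin k) (Fin k) ℤ) a b =
      ∑ c, (x.1 a c - (1 : Matrix (Fin k) (Fin k) ℤ) a c) * y.1 c b +
        (y.1 a b - (1 : Matrix (Fin k) (Fin k) ℤ) a b) := by
    have h2 : ∑ c, (1 : Matrix (Fin k) (Fin k) ℤ) a c * y.1 c b = y.1 a b := by
      rw [← Matrix.mul_apply, Matrix.one_mul]
    simp only [sub_mul, Finset.sum_sub_distrib]
    rw [h2, mul_val]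
    ring
  rw [h1]
  exact dvd_add (Finset.dvd_sum fun c _ => Dvd.dvd.mul_right (hx a c) _) (hy a b)

theorem CM.one {M : ℤ} : CM M (1 : SL k) := fun a b => by
  have : (1 : SL k).1 a b = (1 : Matrix (Fin k) (Fin k) ℤ) a b := rfl
  rw [this, sub_self]; exact dvd_zero _

theorem CM.conj {M : ℤ} {x : SL k} (hx : CM M x) (t : SL k) : CM M (t * x * t⁻¹) := by
  intro a b
  have h1 : (t * x * t⁻¹).1 a b - (1 : Matrix (Fin k) (Fin k) ℤ) a b =
      ∑ c, (∑ d, t.1 a d * (x.1 d c - (1 : Matrix (Fin k) (Fin k) ℤ) d c)) * (t⁻¹).1 c b := by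
    have h2 : ∀ c, ∑ d, t.1 a d * (x.1 d c - (1 : Matrix (Fin k) (Fin k) ℤ) d c) =
        (t * x).1 a c - t.1 a c := by
      intro c
      have h3 : ∑ d, t.1 a d * (1 : Matrix (Fin k) (Fin k) ℤ) d c = t.1 a c := by
        rw [← Matrix.mul_apply, Matrix.mul_one]
      simp only [mul_sub, Finset.sum_sub_distrib]
      rw [h3, mul_val]
    simp only [h2, sub_mul, Finset.sum_sub_distrib]
    have h4 : ∑ c, t.1 a c * (t⁻¹).1 c b = (1 : Matrix (Fin k) (Fin k) ℤ) a b := by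
      rw [← mul_val, mul_inv_cancel]; rfl
    rw [h4, mul_val]
  rw [h1]
  exact Finset.dvd_sum fun c _ => Dvd.dvd.mul_right
    (Finset.dvd_sum fun d _ => Dvd.dvd.mul_left (hx d c) _) _

theorem CM.inv {M : ℤ} {x : SL k} (hx : CM M x) : CM M x⁻¹ := by
  intro a b
  have h1 : (x⁻¹).1 a b - (1 : Matrix (Fin k) (Fin k) ℤ) a b =
      - ∑ c, (x.1 a c - (1 : Matrix (Fin k) (Fin k) ℤ) a c) * (x⁻¹).1 c b := by
    have h2 : ∑ c, (1 : Matrix (Fin k) (Fin k) ℤ) a c * (x⁻¹).1 c b = (x⁻¹).1 a b := by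
      rw [← Matrix.mul_apply, Matrix.one_mul]
    have h4 : ∑ c, x.1 a c * (x⁻¹).1 c b = (1 : Matrix (Fin k) (Fin k) ℤ) a b := by
      rw [← mul_val, mul_inv_cancel]; rfl
    simp only [sub_mul, Finset.sum_sub_distrib]
    rw [h2, h4]
    ring
  rw [h1]
  exact (dvd_neg).2 (Finset.dvd_sum fun c _ => Dvd.dvd.mul_right (hx a c) _)

theorem CM.el {M : ℤ} (i j : Fin k) (h : i ≠ j) (x : ℤ) : CM M (el i j h (M * x)) := by
  intro a b
  have h1 : (TAU.el i j h (M * x)).1 a b = (TAU.el i j h (M * x) * 1).1 a b := by rw [mul_one]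
  rw [h1]
  by_cases ha : a = i
  · subst ha
    rw [el_mul_same]
    have h2 : (1 : SL k).1 a b = (1 : Matrix (Fin k) (Fin k) ℤ) a b := rfl
    rw [h2, add_sub_cancel_left, mul_assoc]
    exact dvd_mul_right _ _
  · rw [el_mul_ne _ _ _ _ _ _ _ ha]
    have h2 : (1 : SL k).1 a b = (1 : Matrix (Fin k) (Fin k) ℤ) a b := rfl
    rw [h2, sub_self]; exact dvd_zero _

/-- the principal congruence subgroup -/
def Gam (k : ℕ) (M : ℤ) : Subgroup (SL k) where
  carrier := {x | CM M x}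
  mul_mem' := fun hx hy => CM.mul hx hy
  one_mem' := CM.one
  inv_mem' := fun hx => CM.inv hx

instance (k : ℕ) (M : ℤ) : (Gam k M).Normal := ⟨fun _ hx t => CM.conj hx t⟩

/-- elements of the subgroup `N` in the block -/
def Nb (N : Subgroup (SL k)) (n : ℕ) (p : SL k) : Prop := p ∈ N ∧ InBlk n p

theorem Nb.mul {N : Subgroup (SL k)} {n : ℕ} {x y : SL k} (hx : Nb N n x) (hy : Nb N n y) :
    Nb N n (x * y) := ⟨N.mul_mem hx.1 hy.1, InBlk.mul hx.2 hy.2⟩

theorem Nb.one {N : Subgroup (SL k)} {n : ℕ} : Nb N n (1 : SL k) := ⟨N.one_mem, InBlk.one⟩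

/-- adding a combination of the rows in `S` to the row `l`, the same for all matrices -/
theorem rowsumU {n : ℕ} (l : Fin k) (hl : (l : ℕ) < n) (c : Fin k → ℤ)
    (S : Finset (Fin k)) (hS : ∀ i ∈ S, (i : ℕ) < n ∧ i ≠ l) :
    ∃ p : SL k, InBlk n p ∧ ∀ x : SL k, (∀ a b, a ≠ l → (p * x).1 a b = x.1 a b) ∧
      ∀ b, (p * x).1 l b = x.1 l b + ∑ i ∈ S, c i * x.1 i b := by
  classical
  induction S using Finset.induction_on with
  | empty => exact ⟨1, InBlk.one, fun x => by simp⟩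
  | insert i S hi ih =>
    obtain ⟨p, h1, h2⟩ := ih (fun j hj => hS j (Finset.mem_insert_of_mem hj))
    have hi' := hS i (Finset.mem_insert_self i S)
    refine ⟨TAU.el l i hi'.2.symm (c i) * p, InBlk.mul (InBlk.el _ _ _ _ hl hi'.1) h1, ?_⟩
    intro x
    refine ⟨?_, ?_⟩
    · intro a b ha
      rw [mul_assoc, el_mul_ne _ _ _ _ _ _ _ ha, (h2 x).1 a b ha]
    · intro b
      rw [mul_assoc, el_mul_same, (h2 x).2 b, (h2 x).1 i b hi'.2, Finset.sum_insert hi]
      ring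

/-- adding multiples of the row `l` to the rows in `S`, in `N` -/
theorem rowclearN {N : Subgroup (SL k)} {M : ℤ}
    (hN : ∀ (i j : Fin k) (h : i ≠ j) (x : ℤ), el i j h (M * x) ∈ N) {n : ℕ}
    (l : Fin k) (hl : (l : ℕ) < n) (d : Fin k → ℤ) (hd : ∀ i, M ∣ d i) (x : SL k)
    (S : Finset (Fin k)) (hS : ∀ i ∈ S, (i : ℕ) < n ∧ i ≠ l) :
    ∃ p : SL k, Nb N n p ∧ (∀ a b, a ∉ S → (p * x).1 a b = x.1 a b) ∧
      ∀ a b, a ∈ S → (p * x).1 a b = x.1 a b + d a * x.1 l b := by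
  classical
  induction S using Finset.induction_on with
  | empty => exact ⟨1, Nb.one, by simp, by simp⟩
  | insert i S hi ih =>
    obtain ⟨p, h1, h2, h3⟩ := ih (fun j hj => hS j (Finset.mem_insert_of_mem hj))
    have hi' := hS i (Finset.mem_insert_self i S)
    have hlS : l ∉ S := fun h => (hS l (Finset.mem_insert_of_mem h)).2 rfl
    refine ⟨TAU.el i l hi'.2 (d i) * p, ?_, ?_, ?_⟩
    · refine Nb.mul ⟨?_, InBlk.el _ _ _ _ hi'.1 hl⟩ h1
      obtain ⟨e, he⟩ := hd i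
      rw [he]; exact hN _ _ _ _
    · intro a b ha
      rw [Finset.mem_insert, not_or] at ha
      rw [mul_assoc, el_mul_ne _ _ _ _ _ _ _ ha.1, h2 a b ha.2]
    · intro a b ha
      rw [mul_assoc]
      by_cases h : a = i
      · subst h
        rw [el_mul_same, h2 a b hi, h2 l b hlS]
      · rw [el_mul_ne _ _ _ _ _ _ _ h, h3 a b (Finset.mem_of_mem_insert_of_ne ha h)]

/-- adding multiples of the column `l` to the columns in `S`, in `N` -/
theorem colclearN {N : Subgroup (SL k)} {M : ℤ}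
    (hN : ∀ (i j : Fin k) (h : i ≠ j) (x : ℤ), el i j h (M * x) ∈ N) {n : ℕ}
    (l : Fin k) (hl : (l : ℕ) < n) (d : Fin k → ℤ) (x : SL k)
    (S : Finset (Fin k)) (hd : ∀ i ∈ S, M ∣ d i) (hS : ∀ i ∈ S, (i : ℕ) < n ∧ i ≠ l) :
    ∃ p : SL k, Nb N n p ∧ (∀ a b, b ∉ S → (x * p).1 a b = x.1 a b) ∧
      ∀ a b, b ∈ S → (x * p).1 a b = x.1 a b + d b * x.1 a l := by
  classical
  induction S using Finset.induction_on with
  | empty => exact ⟨1, Nb.one, by simp, by simp⟩
  | insert i S hi ih =>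
    obtain ⟨p, h1, h2, h3⟩ := ih (fun j hj => hd j (Finset.mem_insert_of_mem hj))
      (fun j hj => hS j (Finset.mem_insert_of_mem hj))
    have hi' := hS i (Finset.mem_insert_self i S)
    have hlS : l ∉ S := fun h => (hS l (Finset.mem_insert_of_mem h)).2 rfl
    refine ⟨p * TAU.el l i hi'.2.symm (d i), ?_, ?_, ?_⟩
    · refine Nb.mul h1 ⟨?_, InBlk.el _ _ _ _ hl hi'.1⟩
      obtain ⟨e, he⟩ := hd i (Finset.mem_insert_self i S)
      rw [he]; exact hN _ _ _ _
    · intro a b hb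
      rw [Finset.mem_insert, not_or] at hb
      rw [← mul_assoc, mul_el_ne _ _ _ _ _ _ _ hb.1, h2 a b hb.2]
    · intro a b hb
      rw [← mul_assoc]
      by_cases h : b = i
      · subst h
        rw [mul_el_same, h2 a b hi, h2 a l hlS]
      · rw [mul_el_ne _ _ _ _ _ _ _ h, h3 a b (Finset.mem_of_mem_insert_of_ne hb h)]

/-- moves in `N` make the part of the column above `l`, divided by `M`, unimodular -/
theorem unimN {N : Subgroup (SL k)} {M : ℤ} (hM : M ≠ 0)
    (hN : ∀ (i j : Fin k) (h : i ≠ j) (x : ℤ), el i j h (M * x) ∈ N)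
    {n : ℕ} (hn : 3 ≤ n) (hk : n ≤ k) (l : Fin k) (hl : (l : ℕ) = n - 1) (x : SL k)
    (hx : InBlk n x) (hC : CM M x) :
    ∃ (p : SL k) (v c : Fin k → ℤ), Nb N n p ∧ (∀ i ∈ T k n, (p * x).1 i l = M * v i) ∧
      (p * x).1 l l = x.1 l l ∧ ∑ i ∈ T k n, c i * v i = 1 := by
  classical
  have h1 := colone (by omega) l hl x hx
  have hlT : l ∉ T k n := by rw [mem_T]; omega
  have hv : ∀ i ∈ T k n, x.1 i l = M * (x.1 i l / M) := by
    intro i hi
    have hil : i ≠ l := fun h => hlT (h ▸ hi)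
    have h2 := hC i l
    rw [Matrix.one_apply_ne hil, sub_zero] at h2
    exact (Int.mul_ediv_cancel' h2).symm
  by_cases h0 : x.1 l l = 0
  · refine ⟨1, fun i => x.1 i l / M, fun i => (x⁻¹).1 l i * M, Nb.one, ?_, by rw [one_mul], ?_⟩
    · intro i hi
      rw [one_mul]; exact hv i hi
    · rw [h0, mul_zero, add_zero] at h1
      refine Eq.trans ?_ h1
      refine Finset.sum_congr rfl fun i hi => ?_
      have h2 := hv i hi
      dsimp only
      calc (x⁻¹).1 l i * M * (x.1 i l / M) = (x⁻¹).1 l i * (M * (x.1 i l / M)) := by ring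
        _ = (x⁻¹).1 l i * x.1 i l := by rw [← h2]
  · have hk0 : 0 < k := by omega
    have hk1 : 1 < k := by omega
    set i0 : Fin k := ⟨0, hk0⟩ with hi0
    set i1 : Fin k := ⟨1, hk1⟩ with hi1
    have h1l : i1 ≠ l := by
      intro h; rw [← h] at hl; simp [hi1] at hl; omega
    have h0l : i0 ≠ l := by
      intro h; rw [← h] at hl; simp [hi0] at hl; omega
    have h01 : i0 ≠ i1 := by
      intro h; simp [hi0, hi1] at h
    have hln : (l : ℕ) < n := by omega
    have hi1T : i1 ∈ T k n := by rw [mem_T]; simp [hi1]; omega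
    have hi0T : i0 ∈ T k n := by rw [mem_T]; simp [hi0]; omega
    -- the first move
    set r : ℤ := if x.1 i1 l = 0 then 1 else 0 with hr
    set e1 := TAU.el i1 l h1l (M * r) with he1
    have m1 : Nb N n e1 := ⟨hN _ _ _ _, InBlk.el _ _ _ _ (by simp [hi1]; omega) hln⟩
    set v1 : Fin k → ℤ := fun i => if i = i1 then x.1 i1 l / M + r * x.1 l l else x.1 i l / M
      with hv1
    have a0 : ∀ i ∈ T k n, (e1 * x).1 i l = M * v1 i := by
      intro i hi
      by_cases h : i = i1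
      · subst h
        rw [he1, el_mul_same, hv1]
        dsimp only
        rw [if_pos rfl, mul_add, ← hv i1 hi1T]
        ring
      · rw [he1, el_mul_ne _ _ _ _ _ _ _ h, hv1]
        dsimp only
        rw [if_neg h]; exact hv i hi
    have a1 : v1 i1 ≠ 0 := by
      rw [hv1]
      dsimp only
      rw [if_pos rfl, hr]
      split_ifs with h
      · rw [h]; simpa using h0
      · rw [zero_mul, add_zero]
        intro h2
        apply h
        rw [hv i1 hi1T, h2, mul_zero]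
    have al : (e1 * x).1 l l = x.1 l l := el_mul_ne _ _ _ _ _ _ _ h1l.symm
    have hx1 : InBlk n (e1 * x) := InBlk.mul m1.2 hx
    obtain ⟨b, c, hb, hdiv⟩ := gcdcomb ((T k n).erase i0) v1
    have hi1T' : i1 ∈ (T k n).erase i0 := Finset.mem_erase.2 ⟨h01.symm, hi1T⟩
    have hb0 : b ≠ 0 := by
      intro h
      have h2 := hdiv i1 hi1T'
      rw [h] at h2
      exact a1 (zero_dvd_iff.1 h2)
    have h2 := colone (by omega) l hl (e1 * x) hx1
    rw [Finset.sum_congr rfl (fun i hi => by rw [a0 i hi])] at h2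
    rw [← Finset.add_sum_erase _ _ hi0T] at h2
    have h3 : b ∣ ∑ i ∈ (T k n).erase i0, ((e1 * x)⁻¹).1 l i * (M * v1 i) :=
      Finset.dvd_sum fun i hi => Dvd.dvd.mul_left (Dvd.dvd.mul_left (hdiv i hi) _) _
    obtain ⟨w, hw⟩ := h3
    rw [hw] at h2
    obtain ⟨t, u, v, ht⟩ := stable (v1 i0) ((e1 * x).1 l l) b
      (((e1 * x)⁻¹).1 l i0 * M) (((e1 * x)⁻¹).1 l l) w (by linarith) hb0
    set e0 := TAU.el i0 l h0l (M * t) with he0
    have m0 : Nb N n e0 := ⟨hN _ _ _ _, InBlk.el _ _ _ _ (by simp [hi0]; omega) hln⟩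
    refine ⟨e0 * e1, fun i => if i = i0 then v1 i0 + t * (e1 * x).1 l l else v1 i,
      fun i => if i = i0 then u else v * c i, Nb.mul m0 m1, ?_, ?_, ?_⟩
    · intro i hi
      dsimp only
      rw [mul_assoc]
      by_cases h : i = i0
      · subst h
        rw [if_pos rfl, he0, el_mul_same, a0 i0 hi0T]
        ring
      · rw [if_neg h, he0, el_mul_ne _ _ _ _ _ _ _ h, a0 i hi]
    · rw [mul_assoc, he0, el_mul_ne _ _ _ _ _ _ _ h0l.symm, al]
    · rw [← Finset.add_sum_erase _ _ hi0T]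
      dsimp only
      rw [if_pos rfl, if_pos rfl]
      have h4 : ∑ i ∈ (T k n).erase i0, (if i = i0 then u else v * c i) *
          (if i = i0 then v1 i0 + t * (e1 * x).1 l l else v1 i) = v * b := by
        rw [hb, Finset.mul_sum]
        refine Finset.sum_congr rfl fun i hi => ?_
        have hi' := (Finset.mem_erase.1 hi).1
        rw [if_neg hi', if_neg hi']; ring
      rw [h4]; exact ht

/-- one step of the reduction -/
theorem stepN {N : Subgroup (SL k)} [N.Normal] {M : ℤ} (hM : M ≠ 0)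
    (hN : ∀ (i j : Fin k) (h : i ≠ j) (x : ℤ), el i j h (M * x) ∈ N)
    (hNC : ∀ x ∈ N, CM M x)
    {n : ℕ} (hn : 3 ≤ n) (hk : n ≤ k) (x : SL k) (hx : InBlk n x) (hC : CM M x) :
    ∃ ν ∈ N, InBlk (n - 1) (ν * x) := by
  classical
  set l : Fin k := ⟨n - 1, by omega⟩ with hl'
  have hl : (l : ℕ) = n - 1 := rfl
  have hln : (l : ℕ) < n := by omega
  have hT : ∀ i ∈ T k n, (i : ℕ) < n ∧ i ≠ l := by
    intro i hi
    rw [mem_T] at hi
    refine ⟨by omega, ?_⟩
    intro h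
    rw [h] at hi
    omega
  have hlT : l ∉ T k n := fun h => (hT l h).2 rfl
  obtain ⟨p1, v, c, m1, hv, hll, hs⟩ := unimN hM hN hn hk l hl x hx hC
  obtain ⟨r, hr⟩ := hC l l
  rw [Matrix.one_apply_eq] at hr
  have hb1 : InBlk n (p1 * x) := InBlk.mul m1.2 hx
  obtain ⟨τ, hτ, hτ'⟩ := rowsumU l hln (fun i => - r * c i) (T k n) hT
  have hll2 : (τ * (p1 * x)).1 l l = 1 := by
    rw [(hτ' _).2 l, hll]
    have h3 : ∑ i ∈ T k n, (fun i => - r * c i) i * (p1 * x).1 i l =
        - r * M * ∑ i ∈ T k n, c i * v i := by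
      rw [Finset.mul_sum]
      refine Finset.sum_congr rfl fun i hi => ?_
      dsimp only
      rw [hv i hi]; ring
    rw [h3, hs]; linarith
  set x2 := τ * (p1 * x) with hx2
  have hb2 : InBlk n x2 := InBlk.mul hτ hb1
  have hx2T : ∀ i ∈ T k n, x2.1 i l = M * v i := by
    intro i hi
    rw [hx2, (hτ' _).1 i l (hT i hi).2, hv i hi]
  obtain ⟨p3, m3, h3, h3'⟩ := rowclearN hN l hln (fun i => M * (- v i))
    (fun i => dvd_mul_right _ _) x2 (T k n) hT
  have hb3 : InBlk n (p3 * x2) := InBlk.mul m3.2 hb2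
  have h3l : (p3 * x2).1 l l = 1 := by rw [h3 l l hlT, hll2]
  have h3c : ∀ i, i ≠ l → (p3 * x2).1 i l = 0 := by
    intro i hi
    by_cases h : i ∈ T k n
    · rw [h3' i l h, hll2, hx2T i h]; ring
    · have h4 : n ≤ (i : ℕ) := by
        rw [mem_T] at h
        have h5 : (i : ℕ) ≠ (l : ℕ) := fun h => hi (Fin.ext h)
        omega
      rw [hb3 i l (Or.inl h4)]
      exact Matrix.one_apply_ne hi
  -- go back with `τ⁻¹`
  set x4 := τ⁻¹ * (p3 * x2) with hx4
  have hx4τ : τ * x4 = p3 * x2 := by rw [hx4]; group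
  have hb4 : InBlk n x4 := InBlk.mul (InBlk.inv hτ) hb3
  have h4c : ∀ i, i ≠ l → x4.1 i l = 0 := by
    intro i hi
    have h5 := (hτ' x4).1 i l hi
    rw [hx4τ, h3c i hi] at h5
    exact h5.symm
  have h4l : x4.1 l l = 1 := by
    have h5 := (hτ' x4).2 l
    rw [hx4τ, h3l] at h5
    have h6 : ∑ i ∈ T k n, (fun i => - r * c i) i * x4.1 i l = 0 := by
      refine Finset.sum_eq_zero fun i hi => ?_
      rw [h4c i (hT i hi).2, mul_zero]
    rw [h6, add_zero] at h5
    exact h5.symm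
  set ν1 := τ⁻¹ * p3 * τ * p1 with hν1
  have hν1N : ν1 ∈ N := by
    refine N.mul_mem ?_ m1.1
    have h5 := Subgroup.Normal.conj_mem (H := N) inferInstance p3 m3.1 τ⁻¹
    rwa [inv_inv] at h5
  have hx4ν : x4 = ν1 * x := by
    rw [hx4, hx2, hν1]; group
  have hC4 : CM M x4 := by
    rw [hx4ν]; exact CM.mul (hNC _ hν1N) hC
  obtain ⟨q, m5, h5, h5'⟩ := colclearN hN l hln (fun j => - x4.1 l j) x4 (T k n)
    (fun j hj => by
      have h6 := hC4 l j
      rw [Matrix.one_apply_ne (hT j hj).2.symm, sub_zero] at h6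
      exact (dvd_neg).2 h6) hT
  have hb5 : InBlk n (x4 * q) := InBlk.mul hb4 m5.2
  refine ⟨x4 * q * x4⁻¹ * ν1, N.mul_mem (Subgroup.Normal.conj_mem (H := N) inferInstance q m5.1 x4)
    hν1N, ?_⟩
  have hfin : x4 * q * x4⁻¹ * ν1 * x = x4 * q := by
    rw [mul_assoc, ← hx4ν]; group
  rw [hfin]
  intro i j hij
  by_cases hc : n ≤ (i : ℕ) ∨ n ≤ (j : ℕ)
  · exact hb5 i j hc
  · rw [not_or] at hc
    by_cases hj : j = l
    · subst hj
      rw [h5 i l hlT]
      by_cases hi : i = l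
      · rw [hi, h4l, Matrix.one_apply_eq]
      · rw [h4c i hi, Matrix.one_apply_ne hi]
    · have hi : i = l := by
        apply Fin.ext
        have h5 : (j : ℕ) ≠ (l : ℕ) := fun h => hj (Fin.ext h)
        omega
      have hjT : j ∈ T k n := by
        rw [mem_T]
        have h5 : (j : ℕ) ≠ (l : ℕ) := fun h => hj (Fin.ext h)
        omega
      rw [hi, h5' l j hjT, h4l, Matrix.one_apply_ne (Ne.symm hj)]
      ring

theorem reduceN {N : Subgroup (SL k)} [N.Normal] {M : ℤ} (hM : M ≠ 0)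
    (hN : ∀ (i j : Fin k) (h : i ≠ j) (x : ℤ), el i j h (M * x) ∈ N)
    (hNC : ∀ x ∈ N, CM M x) (n : ℕ) : 2 ≤ n → n ≤ k → ∀ x : SL k, InBlk n x → CM M x →
    ∃ ν ∈ N, InBlk 2 (ν * x) := by
  induction n with
  | zero => intro h; omega
  | succ n ih =>
    intro hn hk x hx hC
    by_cases h : n + 1 = 2
    · refine ⟨1, N.one_mem, ?_⟩
      rw [h] at hx; rw [one_mul]; exact hx
    · obtain ⟨ν, h1, h2⟩ := stepN hM hN hNC (by omega) hk x hx hC
      obtain ⟨ν', h1', h2'⟩ := ih (by omega) (by omega) (ν * x) h2 (CM.mul (hNC _ h1) hC)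
      refine ⟨ν' * ν, N.mul_mem h1' h1, ?_⟩
      rw [mul_assoc]; exact h2'

/-- **Reduction to the block.** -/
theorem red (k : ℕ) (M : ℤ) (N : Subgroup (SL k)) [N.Normal]
    (hN : ∀ (i j : Fin k) (h : i ≠ j) (x : ℤ), el i j h (M * x) ∈ N) (g : SL k)
    (hg : ∀ a b : Fin k, M ∣ g.1 a b - (1 : Matrix (Fin k) (Fin k) ℤ) a b) :
    ∃ ν ∈ N, InBlock (ν * g) ∧
      ∀ a b : Fin k, M ∣ (ν * g).1 a b - (1 : Matrix (Fin k) (Fin k) ℤ) a b := by
  by_cases hk : k < 2
  · refine ⟨1, N.one_mem, ?_, ?_⟩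
    · intro i j h
      have := i.2
      have := j.2
      omega
    · rw [one_mul]; exact hg
  rcases eq_or_ne M 0 with rfl | hM
  · refine ⟨1, N.one_mem, ?_, ?_⟩
    · intro i j _
      rw [one_mul]
      have h1 := hg i j
      rw [zero_dvd_iff, sub_eq_zero] at h1
      exact h1
    · rw [one_mul]; exact hg
  · obtain ⟨ν, h1, h2⟩ := reduceN (N := N ⊓ Gam k M) hM
      (fun i j h x => Subgroup.mem_inf.2 ⟨hN i j h x, CM.el i j h x⟩)
      (fun x hx => (Subgroup.mem_inf.1 hx).2) k (by omega) le_rfl g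
      (fun i j h => by have := i.2; have := j.2; omega) hg
    have h3 := Subgroup.mem_inf.1 h1
    exact ⟨ν, h3.1, h2, CM.mul h3.2 hg⟩

end Pool.Agent.K89
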