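import Pool.Agent.CSPM.Three
import Pool.Agent.K89.Red
import Pool.Agent.TAU.Gen

/-!
The congruence subgroup theorem for `SL_k(ℤ)`, `k ≥ 3` (Bass, Lazard, Serre; Mennicke): the
principal congruence subgroup modulo `M` is the normal closure of the elementary matrices
`1 + M x e_ij`.
-/

set_option autoImplicit false

namespace Pool.Agent.K89

open Pool.Agent.TAU (SL el IsEl InBlock rt_mul rt_zero rt_inv rt_pow rt_zpow rt_rel upHom upHom_el
  exists_upHom)

/-- the block in `SL_3(ℤ)` -/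
theorem block3 {M : ℤ} {N : Subgroup (SL 3)} [hNn : N.Normal]
    (hN : ∀ (i j : Fin 3) (h : i ≠ j) (x : ℤ), el i j h (M * x) ∈ N)
    (g : SL 3) (hg1 : InBlock g)
    (hg : ∀ a b : Fin 3, M ∣ g.1 a b - (1 : Matrix (Fin 3) (Fin 3) ℤ) a b) : g ∈ N := by
  have hg2 : g.1 = !![g.1 0 0, g.1 0 1, 0; g.1 1 0, g.1 1 1, 0; 0, 0, 1] := by
    ext i j
    fin_cases i <;> fin_cases j
    · rfl
    · rfl
    · exact hg1 0 2 (Or.inr le_rfl)
    · rfl
    · rfl
    · exact hg1 1 2 (Or.inr le_rfl)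
    · exact hg1 2 0 (Or.inl le_rfl)
    · exact hg1 2 1 (Or.inl le_rfl)
    · exact hg1 2 2 (Or.inl le_rfl)
  have hdet : g.1 0 0 * g.1 1 1 - g.1 0 1 * g.1 1 0 = 1 := by
    have h1 := g.2
    rw [hg2, Matrix.det_fin_three] at h1
    simpa using h1
  have ha := hg 0 0
  have hb := hg 0 1
  have hc := hg 1 0
  have e0 : (1 : Matrix (Fin 3) (Fin 3) ℤ) 0 0 = 1 := rfl
  have e1 : (1 : Matrix (Fin 3) (Fin 3) ℤ) 0 1 = 0 := rfl
  have e2 : (1 : Matrix (Fin 3) (Fin 3) ℤ) 1 0 = 0 := rfl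
  rw [e0] at ha
  rw [e1, sub_zero] at hb
  rw [e2, sub_zero] at hc
  have hgb : g = Pool.Agent.CSPM.blk (g.1 0 0) (g.1 0 1) (g.1 1 0) (g.1 1 1) hdet := by
    apply Subtype.ext
    rw [Pool.Agent.CSPM.blk_val]
    exact hg2
  have hf : ∀ (i j : Fin 3) (h : i ≠ j) (t : ℤ),
      QuotientGroup.mk' N (el i j h ((M.natAbs : ℤ) * t)) = 1 := by
    intro i j h t
    rw [QuotientGroup.mk'_apply, QuotientGroup.eq_one_iff]
    rcases Int.natAbs_eq M with h1 | h1
    · rw [← h1]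
      exact hN i j h t
    · have e : (M.natAbs : ℤ) * t = M * -t := by
        rw [mul_neg, ← neg_mul]
        congr 1
        omega
      rw [e]
      exact hN i j h _
  have h2 := Pool.Agent.CSPM.csp3 (QuotientGroup.mk' N) hf _ _ _ _ hdet (Int.natAbs_dvd.2 ha)
    (Int.natAbs_dvd.2 hb) (Int.natAbs_dvd.2 hc)
  rw [← hgb, QuotientGroup.mk'_apply, QuotientGroup.eq_one_iff] at h2
  exact h2

/-- the block in `SL_(3+n)(ℤ)` -/
theorem blockn {M : ℤ} (n : ℕ) : ∀ (N : Subgroup (SL (3 + n))) [N.Normal],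
    (∀ (i j : Fin (3 + n)) (h : i ≠ j) (x : ℤ), el i j h (M * x) ∈ N) → ∀ g : SL (3 + n),
    InBlock g → (∀ a b : Fin (3 + n), M ∣ g.1 a b -
      (1 : Matrix (Fin (3 + n)) (Fin (3 + n)) ℤ) a b) → g ∈ N := by
  induction n with
  | zero =>
    intro N _ hN g hg1 hg
    exact block3 hN g hg1 hg
  | succ n ih =>
    intro N _ hN g hg1 hg
    obtain ⟨y, rfl, hy⟩ := exists_upHom (k := 3 + n) g
      (fun j => hg1 _ _ (Or.inl (by simp [Fin.val_last]; omega)))
      (fun i => hg1 _ _ (Or.inr (by simp [Fin.val_last]; omega)))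
    have h1 : ∀ i j : Fin (3 + n), (1 : Matrix (Fin (3 + n)) (Fin (3 + n)) ℤ) i j =
        (1 : Matrix (Fin (3 + n + 1)) (Fin (3 + n + 1)) ℤ) i.castSucc j.castSucc := by
      intro i j
      by_cases h : i = j
      · subst h
        rw [Matrix.one_apply_eq, Matrix.one_apply_eq]
      · rw [Matrix.one_apply_ne h, Matrix.one_apply_ne (fun h' => h (Fin.castSucc_injective _ h'))]
    have h2 := ih (N.comap (upHom (3 + n))) (by
      intro i j h x
      change upHom (3 + n) (el i j h (M * x)) ∈ N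
      rw [upHom_el]
      exact hN _ _ _ x) y (by
      intro i j hij
      rw [hy, h1]
      exact hg1 i.castSucc j.castSucc hij) (by
      intro i j
      rw [hy, h1]
      exact hg i.castSucc j.castSucc)
    exact h2

/-- THE CONGRUENCE SUBGROUP THEOREM -/
theorem csp (k : ℕ) (hk : 3 ≤ k) (M : ℤ) (N : Subgroup (SL k)) [N.Normal]
    (hN : ∀ (i j : Fin k) (h : i ≠ j) (x : ℤ), el i j h (M * x) ∈ N) (g : SL k)
    (hg : ∀ a b : Fin k, M ∣ g.1 a b - (1 : Matrix (Fin k) (Fin k) ℤ) a b) : g ∈ N := by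
  obtain ⟨ν, hν, h1, h2⟩ := red k M N hN g hg
  obtain ⟨n, rfl⟩ := Nat.exists_eq_add_of_le hk
  exact (N.mul_mem_cancel_left hν).1 (blockn n N hN _ h1 h2)

end Pool.Agent.K89
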