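import Pool.Agent.TAU.Root

/-!
The matrices of `SL_3(ℤ)` with a `2 × 2` block.
-/

set_option autoImplicit false

namespace Pool.Agent.K89

open Pool.Agent.TAU (SL el)

/-- the matrix with the `2 × 2` block `(a, b; c, d)` -/
def blk (a b c d : ℤ) (h : a * d - b * c = 1) : SL 3 :=
  ⟨!![a, b, 0; c, d, 0; 0, 0, 1], by
    rw [Matrix.det_fin_three]
    simp
    exact h⟩

end Pool.Agent.K89
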