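import Pool.Agent.K89.ToQ
import Pool.Agent.K89.EGen
import Pool.Agent.FS84.Wr

/-!
The image of the amalgam `P = SL_k(ℤ) *_A SL_k(ℤ)` in `SL_k(ℚ)` is `SL_k(ℤ[1/p])`.
-/

set_option autoImplicit false

namespace Pool.Agent.K89

open Pool.Agent.FS84
open Pool.Agent.TAU (SL el)

/-- the elements of `ℤ[1/p]` -/
theorem ZI_den (p : ℕ) (hp : (p : ℚ) ≠ 0) (x : ℚ) (hx : x ∈ ZI p) :
    ∃ (a : ℤ) (s : ℕ), x * (p : ℚ) ^ s = a := by
  induction hx using Subring.closure_induction with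
  | mem x hx =>
    rw [Set.mem_singleton_iff] at hx
    refine ⟨1, 1, ?_⟩
    rw [hx, pow_one, inv_mul_cancel₀ hp]
    norm_num
  | zero => exact ⟨0, 0, by simp⟩
  | one => exact ⟨1, 0, by simp⟩
  | add x y _ _ hx hy =>
    obtain ⟨a, s, ha⟩ := hx
    obtain ⟨b, t, hb⟩ := hy
    refine ⟨a * (p : ℤ) ^ t + b * (p : ℤ) ^ s, s + t, ?_⟩
    push_cast
    rw [← ha, ← hb, pow_add]
    ring
  | neg x _ hx =>
    obtain ⟨a, s, ha⟩ := hx
    refine ⟨-a, s, ?_⟩
    push_cast
    rw [← ha]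
    ring
  | mul x y _ _ hx hy =>
    obtain ⟨a, s, ha⟩ := hx
    obtain ⟨b, t, hb⟩ := hy
    refine ⟨a * b, s + t, ?_⟩
    push_cast
    rw [← ha, ← hb, pow_add]
    ring

theorem tv_prod {R : Type} [CommRing R] {k : ℕ} (i j l : Fin k) (hij : i ≠ j) (hjl : j ≠ l)
    (hil : i ≠ l) (a b : R) :
    tv i j hij a * tv j l hjl b = tv i l hil (a * b) * tv j l hjl b * tv i j hij a := by
  apply Subtype.ext
  rw [Matrix.SpecialLinearGroup.coe_mul, Matrix.SpecialLinearGroup.coe_mul,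
    Matrix.SpecialLinearGroup.coe_mul]
  change Matrix.transvection i j a * Matrix.transvection j l b =
    Matrix.transvection i l (a * b) * Matrix.transvection j l b * Matrix.transvection i j a
  unfold Matrix.transvection
  simp only [mul_add, add_mul, one_mul, mul_one, Matrix.single_mul_single_same,
    Matrix.single_mul_single_of_ne _ _ _ _ hil.symm,
    Matrix.single_mul_single_of_ne _ _ _ _ hjl.symm, add_zero]
  abel

theorem tv_step {R : Type} [CommRing R] {k : ℕ} {G : Subgroup (Matrix.SpecialLinearGroup (Fin k) R)}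
    {i j l : Fin k} (hij : i ≠ j) (hjl : j ≠ l) (hil : i ≠ l) {a b : R}
    (h1 : tv i j hij a ∈ G) (h2 : tv j l hjl b ∈ G) : tv i l hil (a * b) ∈ G := by
  have h3 := tv_prod i j l hij hjl hil a b
  have h4 : tv i l hil (a * b) = tv i j hij a * tv j l hjl b * (tv i j hij a)⁻¹ *
      (tv j l hjl b)⁻¹ := by
    rw [h3]
    group
  rw [h4]
  exact G.mul_mem (G.mul_mem (G.mul_mem h1 h2) (G.inv_mem h1)) (G.inv_mem h2)

variable (n p : ℕ) [NeZero p]

theorem range_int (i j : Fin (n + 3)) (h : i ≠ j) (s : ℤ) : tv i j h (s : ℚ) ∈ (toQ n p).range :=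
  ⟨amalgIncl n p false (tv i j h s), by rw [toQ_false, slQ_tv]⟩

theorem range_21 : tv (2 : Fin (n + 3)) 1 (ne12 n).symm ((p : ℚ)⁻¹) ∈ (toQ n p).range := by
  refine ⟨amalgIncl n p true (tv 2 1 (ne12 n).symm (1 : ℤ)), ?_⟩
  have h1 := gEl_inv_tv n p 2 1 (ne12 n).symm (((1 : ℤ) : ℚ))
  rw [inv_inv] at h1
  rw [toQ_true, slQ_tv, h1, dg_one, dg_two]
  congr 1
  push_cast
  rw [mul_one, div_one]

theorem range_01 (t : ℕ) (s : ℤ) :
    tv (0 : Fin (n + 3)) 1 (ne01 n) ((s : ℚ) * ((p : ℚ)⁻¹) ^ t) ∈ (toQ n p).range := by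
  induction t with
  | zero =>
    rw [pow_zero, mul_one]
    exact range_int n p 0 1 (ne01 n) s
  | succ t ih =>
    have h1 := tv_step (ne01 n) (ne12 n) (ne02 n) ih
      (by simpa using range_int n p 1 2 (ne12 n) 1 :
        tv (1 : Fin (n + 3)) 2 (ne12 n) (1 : ℚ) ∈ (toQ n p).range)
    rw [mul_one] at h1
    have h2 := tv_step (ne02 n) (ne12 n).symm (ne01 n) h1 (range_21 n p)
    rw [pow_succ, ← mul_assoc]
    exact h2

theorem range_tv (i j : Fin (n + 3)) (h : i ≠ j) (r : ℚ) (hr : r ∈ ZI p) :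
    tv i j h r ∈ (toQ n p).range := by
  have hp : (p : ℚ) ≠ 0 := by exact_mod_cast (NeZero.ne p)
  have hone : ∀ (a b : Fin (n + 3)) (hab : a ≠ b), tv a b hab (1 : ℚ) ∈ (toQ n p).range :=
    fun a b hab => by simpa using range_int n p a b hab 1
  have h01 : tv (0 : Fin (n + 3)) 1 (ne01 n) r ∈ (toQ n p).range := by
    obtain ⟨a, s, ha⟩ := ZI_den p hp r hr
    have h1 : r = (a : ℚ) * ((p : ℚ)⁻¹) ^ s := by
      rw [← ha, inv_pow, mul_assoc, mul_inv_cancel₀ (pow_ne_zero s hp), mul_one]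
    rw [h1]
    exact range_01 n p s a
  have h0 : ∀ (b : Fin (n + 3)) (hb : 0 ≠ b), tv (0 : Fin (n + 3)) b hb r ∈ (toQ n p).range := by
    intro b hb
    by_cases h1 : b = 1
    · subst h1
      exact h01
    · have h2 := tv_step (ne01 n) (Ne.symm h1) hb h01 (hone 1 b (Ne.symm h1))
      rwa [mul_one] at h2
  have hne : ∀ (a b : Fin (n + 3)) (hab : a ≠ b) (_ : a ≠ 0) (_ : b ≠ 0),
      tv a b hab r ∈ (toQ n p).range := by
    intro a b hab ha hb
    have h2 := tv_step ha (Ne.symm hb) hab (hone a 0 ha) (h0 b (Ne.symm hb))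
    rwa [one_mul] at h2
  by_cases hi : i = 0
  · subst hi
    exact h0 j h
  by_cases hj : j = 0
  · subst hj
    obtain ⟨l, hl0, hli⟩ : ∃ l : Fin (n + 3), l ≠ 0 ∧ i ≠ l := by
      by_cases h1 : i = 1
      · exact ⟨2, (ne02 n).symm, h1 ▸ ne12 n⟩
      · exact ⟨1, (ne01 n).symm, h1⟩
    have h2 := tv_step hli hl0 h (hne i l hli hi hl0) (hone l 0 hl0)
    rwa [mul_one] at h2
  · exact hne i j h hi hj

omit [NeZero p] in
theorem slIQ_tv (k : ℕ) (i j : Fin k) (h : i ≠ j) (c : ZI p) :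
    slIQ k p (tv i j h c) = tv i j h (c : ℚ) := by
  apply Subtype.ext
  ext a b
  change ((Matrix.transvection i j c a b : ZI p) : ℚ) = Matrix.transvection i j (c : ℚ) a b
  unfold Matrix.transvection
  rw [Matrix.add_apply, Matrix.add_apply, Matrix.one_apply, Matrix.one_apply, Matrix.single_apply,
    Matrix.single_apply]
  split_ifs <;> simp

theorem le_toQ_range : (slIQ (n + 3) p).range ≤ (toQ n p).range := by
  have hp : (p : ℚ) ≠ 0 := by exact_mod_cast (NeZero.ne p)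
  have h1 : (toQ n p).range.comap (slIQ (n + 3) p) = ⊤ := by
    apply EG.eq_top
    · intro r
      obtain ⟨a, s, ha⟩ := ZI_den p hp r r.2
      refine ⟨p ^ s, a, pow_ne_zero s (NeZero.ne p), ?_⟩
      apply Subtype.ext
      push_cast
      rw [mul_comm]
      exact ha
    · omega
    · intro i j h c
      rw [Subgroup.mem_comap, slIQ_tv]
      exact range_tv n p i j h c c.2
  rintro _ ⟨x, rfl⟩
  have h2 : x ∈ (toQ n p).range.comap (slIQ (n + 3) p) := by
    rw [h1]
    exact Subgroup.mem_top x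
  exact h2

theorem toQ_mem (w : Amalgam n p) : toQ n p w ∈ (slIQ (n + 3) p).range := by
  have h1 : Subgroup.closure {x : Amalgam n p | ∃ (b : Bool) (i j : Fin (n + 3))
      (h : i ≠ j), x = amalgIncl n p b (Pool.Agent.TAU.el i j h 1)} ≤
      (slIQ (n + 3) p).range.comap (toQ n p) := by
    rw [Subgroup.closure_le]
    rintro _ ⟨b, i, j, h, rfl⟩
    change toQ n p (amalgIncl n p b (el i j h 1)) ∈ (slIQ (n + 3) p).range
    have hint : ∀ c : SL (n + 3), slQ (n + 3) c ∈ (slIQ (n + 3) p).range :=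
      fun c => ⟨slI (n + 3) p c, slIQ_slI (n + 3) p c⟩
    have hg : gEl n p ∈ (slIQ (n + 3) p).range := ⟨gI n p, slIQ_gI n p⟩
    cases b with
    | false =>
      rw [toQ_false]
      exact hint _
    | true =>
      rw [toQ_true]
      exact Subgroup.mul_mem _ (Subgroup.mul_mem _ (Subgroup.inv_mem _ hg) (hint _)) hg
  rw [amalg_closure] at h1
  exact h1 (Subgroup.mem_top w)

/-- the image of the amalgam is `SL_k(ℤ[1/p])` -/
theorem range_toQ : (toQ n p).range = (slIQ (n + 3) p).range := by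
  apply le_antisymm
  · rintro _ ⟨w, rfl⟩
    exact toQ_mem n p w
  · exact le_toQ_range n p

theorem toI : ∃ r : Amalgam n p →* Matrix.SpecialLinearGroup (Fin (n + 3)) (ZI p),
    Function.Surjective r ∧ ∀ w, slIQ (n + 3) p (r w) = toQ n p w := by
  have hinj := slIQ_injective (n + 3) p
  have hr : ∀ w, slIQ (n + 3) p (((MonoidHom.ofInjective hinj).symm.toMonoidHom.comp
      ((toQ n p).codRestrict (slIQ (n + 3) p).range (toQ_mem n p))) w) = toQ n p w := by
    intro w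
    exact MonoidHom.apply_ofInjective_symm hinj ⟨toQ n p w, toQ_mem n p w⟩
  refine ⟨(MonoidHom.ofInjective hinj).symm.toMonoidHom.comp
    ((toQ n p).codRestrict (slIQ (n + 3) p).range (toQ_mem n p)), ?_, hr⟩
  intro y
  obtain ⟨w, hw⟩ := le_toQ_range n p ⟨y, rfl⟩
  refine ⟨w, hinj ?_⟩
  rw [hr w, hw]

end Pool.Agent.K89
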