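import Pool.Agent.IRS.Tits

/-!
Suslin's lemma with a bound: for a conjugation-invariant length on `SL_k(ℤ)`, `k ≥ 3`, which is at
most `t` on the elementary matrices `1 + M x e_ij`, the commutator of an elementary matrix with a
matrix which is `1` modulo `M` has length at most `C t`, `C` depending only on `k`.
-/

set_option autoImplicit false

namespace Pool.Agent.K89

open Pool.Agent.TAU (SL el rt_mul rt_zero rt_inv rt_pow rt_zpow rt_rel)
open Pool.Agent.IRS (psi psi_dot psi_dot_self vv_mul psi_sum)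
open Matrix

variable {k : ℕ}

/-- a conjugation-invariant length -/
structure IsLen {G : Type} [Group G] (ℓ : G → ℝ) : Prop where
  one : ℓ 1 = 0
  mul : ∀ g h, ℓ (g * h) ≤ ℓ g + ℓ h
  inv : ∀ g, ℓ g⁻¹ = ℓ g
  conj : ∀ g h, ℓ (h * g * h⁻¹) = ℓ g

theorem IsLen.nonneg {G : Type} [Group G] {ℓ : G → ℝ} (h : IsLen ℓ) (g : G) : 0 ≤ ℓ g := by
  have h1 := h.mul g g⁻¹
  rw [mul_inv_cancel, h.one, h.inv] at h1
  linarith

/-- `g` and `g'` are `c t`-close -/
def Nr {G : Type} [Group G] (ℓ : G → ℝ) (t : ℝ) (c : ℕ) (g g' : G) : Prop :=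
  ℓ (g * g'⁻¹) ≤ c * t

section Nr

variable {G : Type} [Group G] {ℓ : G → ℝ} {t : ℝ}

theorem nr_refl (hl : IsLen ℓ) (g : G) : Nr ℓ t 0 g g := by
  unfold Nr
  rw [mul_inv_cancel, hl.one]
  simp

theorem nr_mul (hl : IsLen ℓ) {c d : ℕ} {g g' h h' : G} (h1 : Nr ℓ t c g g')
    (h2 : Nr ℓ t d h h') : Nr ℓ t (c + d) (g * h) (g' * h') := by
  unfold Nr at *
  have e : g * h * (g' * h')⁻¹ = (g * (h * h'⁻¹) * g⁻¹) * (g * g'⁻¹) := by group
  have h3 := hl.mul (g * (h * h'⁻¹) * g⁻¹) (g * g'⁻¹)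
  rw [hl.conj] at h3
  rw [e]
  push_cast
  linarith

theorem nr_inv (hl : IsLen ℓ) {c : ℕ} {g g' : G} (h1 : Nr ℓ t c g g') :
    Nr ℓ t c g⁻¹ g'⁻¹ := by
  unfold Nr at *
  have e : g⁻¹ * g'⁻¹⁻¹ = g⁻¹ * (g * g'⁻¹)⁻¹ * g⁻¹⁻¹ := by group
  rw [e, hl.conj, hl.inv]
  exact h1

theorem nr_mono {c d : ℕ} (ht : 0 ≤ t) (hcd : c ≤ d) {g g' : G} (h1 : Nr ℓ t c g g') :
    Nr ℓ t d g g' := by
  unfold Nr at *
  have : (c : ℝ) ≤ d := by exact_mod_cast hcd
  nlinarith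

end Nr

/-- `1 + u φᵀ` and `1 + u' φ'ᵀ` are `c t`-close -/
def TT (ℓ : SL k → ℝ) (t : ℝ) (c : ℕ) (u φ u' φ' : Fin k → ℤ) : Prop :=
  ∃ g g' : SL k, g.1 = 1 + vecMulVec u φ ∧ g'.1 = 1 + vecMulVec u' φ' ∧ Nr ℓ t c g g'

variable {ℓ : SL k → ℝ} {t : ℝ}

theorem tt_zero (hl : IsLen ℓ) (u u' : Fin k → ℤ) : TT ℓ t 0 u 0 u' 0 :=
  ⟨1, 1, by simp, by simp, nr_refl hl 1⟩

theorem tt_mono {c d : ℕ} (ht : 0 ≤ t) (hcd : c ≤ d) {u φ u' φ' : Fin k → ℤ}
    (h : TT ℓ t c u φ u' φ') : TT ℓ t d u φ u' φ' := by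
  obtain ⟨g, g', h1, h2, h3⟩ := h
  exact ⟨g, g', h1, h2, nr_mono ht hcd h3⟩

theorem val_add_right {u φ ψ : Fin k → ℤ} {g h : SL k} (eg : g.1 = 1 + vecMulVec u φ)
    (eh : h.1 = 1 + vecMulVec u ψ) (h0 : φ ⬝ᵥ u = 0) :
    (g * h).1 = 1 + vecMulVec u (φ + ψ) := by
  have e : (g * h).1 = g.1 * h.1 := rfl
  rw [e, eg, eh, mul_add, add_mul, add_mul, vv_mul, h0, zero_smul, vecMulVec_zero, vecMulVec_add,
    one_mul, one_mul, mul_one]
  abel

theorem val_add_left {u v φ : Fin k → ℤ} {g h : SL k} (eg : g.1 = 1 + vecMulVec u φ)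
    (eh : h.1 = 1 + vecMulVec v φ) (h0 : φ ⬝ᵥ v = 0) :
    (g * h).1 = 1 + vecMulVec (u + v) φ := by
  have e : (g * h).1 = g.1 * h.1 := rfl
  rw [e, eg, eh, mul_add, add_mul, add_mul, vv_mul, h0, zero_smul, vecMulVec_zero, add_vecMulVec,
    one_mul, one_mul, mul_one]
  abel

theorem val_comm {x y z w : Fin k → ℤ} {g h : SL k} (eg : g.1 = 1 + vecMulVec x y)
    (eh : h.1 = 1 + vecMulVec z w) (hyx : y ⬝ᵥ x = 0)
    (hwz : w ⬝ᵥ z = 0) (hwx : w ⬝ᵥ x = 0) :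
    (g * h * (h * g)⁻¹).1 = 1 + vecMulVec x ((y ⬝ᵥ z) • w) := by
  have key : (1 + vecMulVec x ((y ⬝ᵥ z) • w)) * (h * g).1 = (g * h).1 := by
    have e : (g * h).1 = g.1 * h.1 := rfl
    have e' : (h * g).1 = h.1 * g.1 := rfl
    rw [e, e', eg, eh]
    have hX : vecMulVec x y * vecMulVec x y = 0 := by
      rw [vv_mul, hyx, zero_smul, vecMulVec_zero]
    have hZ : vecMulVec z w * vecMulVec z w = 0 := by
      rw [vv_mul, hwz, zero_smul, vecMulVec_zero]
    have hZX : vecMulVec z w * vecMulVec x y = 0 := by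
      rw [vv_mul, hwx, zero_smul, vecMulVec_zero]
    rw [← vv_mul]
    have h3 : vecMulVec x y * vecMulVec z w * vecMulVec z w = 0 := by
      rw [mul_assoc, hZ, mul_zero]
    have h4 : vecMulVec x y * vecMulVec z w * vecMulVec x y = 0 := by
      rw [mul_assoc, hZX, mul_zero]
    generalize vecMulVec x y = X at *
    generalize vecMulVec z w = Z at *
    have e5 : (1 + Z) * (1 + X) = 1 + Z + X + Z * X := by noncomm_ring
    rw [e5, hZX, add_zero]
    have e6 : (1 + X * Z) * (1 + Z + X) = 1 + Z + X + X * Z + X * Z * Z + X * Z * X := by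
      noncomm_ring
    rw [e6, h3, h4]
    noncomm_ring
  have e : (g * h * (h * g)⁻¹).1 = (g * h).1 * ((h * g)⁻¹).1 := rfl
  rw [e, ← key, mul_assoc]
  have e' : (h * g).1 * ((h * g)⁻¹).1 = 1 := by
    have := congrArg (fun x : SL k => x.1) (mul_inv_cancel (h * g))
    exact this
  rw [e', mul_one]

theorem tt_add_right (hl : IsLen ℓ) {c d : ℕ} {u φ ψ u' φ' ψ' : Fin k → ℤ}
    (h1 : TT ℓ t c u φ u' φ') (h2 : TT ℓ t d u ψ u' ψ') (h : φ ⬝ᵥ u = 0) (h' : φ' ⬝ᵥ u' = 0) :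
    TT ℓ t (c + d) u (φ + ψ) u' (φ' + ψ') := by
  obtain ⟨g, g', eg, eg', n1⟩ := h1
  obtain ⟨f, f', ef, ef', n2⟩ := h2
  exact ⟨g * f, g' * f', val_add_right eg ef h, val_add_right eg' ef' h', nr_mul hl n1 n2⟩

theorem tt_add_left (hl : IsLen ℓ) {c d : ℕ} {u v φ u' v' φ' : Fin k → ℤ}
    (h1 : TT ℓ t c u φ u' φ') (h2 : TT ℓ t d v φ v' φ') (h : φ ⬝ᵥ v = 0) (h' : φ' ⬝ᵥ v' = 0) :
    TT ℓ t (c + d) (u + v) φ (u' + v') φ' := by
  obtain ⟨g, g', eg, eg', n1⟩ := h1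
  obtain ⟨f, f', ef, ef', n2⟩ := h2
  exact ⟨g * f, g' * f', val_add_left eg ef h, val_add_left eg' ef' h', nr_mul hl n1 n2⟩

theorem tt_comm (hl : IsLen ℓ) {c d : ℕ} {x y z w x' y' z' w' : Fin k → ℤ}
    (h1 : TT ℓ t c x y x' y') (h2 : TT ℓ t d z w z' w')
    (hyx : y ⬝ᵥ x = 0) (hwz : w ⬝ᵥ z = 0) (hwx : w ⬝ᵥ x = 0)
    (hyx' : y' ⬝ᵥ x' = 0) (hwz' : w' ⬝ᵥ z' = 0) (hwx' : w' ⬝ᵥ x' = 0) :
    TT ℓ t ((c + d) + (d + c)) x ((y ⬝ᵥ z) • w) x' ((y' ⬝ᵥ z') • w') := by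
  obtain ⟨g, g', eg, eg', n1⟩ := h1
  obtain ⟨f, f', ef, ef', n2⟩ := h2
  exact ⟨g * f * (f * g)⁻¹, g' * f' * (f' * g')⁻¹, val_comm eg ef hyx hwz hwx,
    val_comm eg' ef' hyx' hwz' hwx', nr_mul hl (nr_mul hl n1 n2) (nr_inv hl (nr_mul hl n2 n1))⟩

theorem tt_smul {c : ℕ} {u φ u' φ' : Fin k → ℤ} (s s' : ℤ) :
    TT ℓ t c u (s • φ) u' (s' • φ') ↔ TT ℓ t c (s • u) φ (s' • u') φ' := by
  unfold TT
  rw [vecMulVec_smul, smul_vecMulVec, vecMulVec_smul, smul_vecMulVec]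

theorem el_val (i j : Fin k) (h : i ≠ j) (a b : ℤ) :
    (el i j h (a * b)).1 = 1 + vecMulVec (Pi.single i a) (Pi.single j b) := by
  change Matrix.transvection i j (a * b) = _
  unfold Matrix.transvection
  congr 1
  ext p q
  rw [vecMulVec_apply, Matrix.single_apply, Pi.single_apply, Pi.single_apply]
  by_cases h1 : p = i
  · by_cases h2 : q = j
    · simp [h1, h2]
    · simp [h1, h2, Ne.symm h2]
  · simp [h1, Ne.symm h1]

theorem tt_el {M : ℤ} (hM : ∀ (i j : Fin k) (h : i ≠ j) (x : ℤ), ℓ (el i j h (M * x)) ≤ t)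
    {i j : Fin k} (h : i ≠ j) (a b a' b' : ℤ) (hab : M ∣ a * b - a' * b') :
    TT ℓ t 1 (Pi.single i a) (Pi.single j b) (Pi.single i a') (Pi.single j b') := by
  refine ⟨el i j h (a * b), el i j h (a' * b'), el_val i j h a b, el_val i j h a' b', ?_⟩
  unfold Nr
  obtain ⟨x, hx⟩ := hab
  rw [rt_inv, rt_mul, ← sub_eq_add_neg, hx, Nat.cast_one, one_mul]
  exact hM i j h x

theorem dvd_mul_sub {M a b a' b' : ℤ} (h1 : M ∣ a - a') (h2 : M ∣ b - b') :
    M ∣ a * b - a' * b' := by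
  have e : a * b - a' * b' = (a - a') * b + a' * (b - b') := by ring
  rw [e]
  exact dvd_add (h1.mul_right _) (h2.mul_left _)

theorem tt_row (hl : IsLen ℓ) {M : ℤ}
    (hM : ∀ (i j : Fin k) (h : i ≠ j) (x : ℤ), ℓ (el i j h (M * x)) ≤ t) (u u' : Fin k → ℤ)
    (hu : ∀ i, M ∣ u i - u' i) {p q r : Fin k} (hp : r ≠ p) (hq : r ≠ q) (a a' : ℤ)
    (ha : M ∣ a - a') :
    TT ℓ t (1 + 1) (Pi.single r a) (psi u p q) (Pi.single r a') (psi u' p q) := by
  unfold psi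
  apply tt_add_right hl
  · exact tt_el hM hq a (u p) a' (u' p) (dvd_mul_sub ha (hu p))
  · refine tt_el hM hp a (-u q) a' (-u' q) (dvd_mul_sub ha ?_)
    have e : -u q - -u' q = -(u q - u' q) := by ring
    rw [e]
    exact (hu q).neg_right
  · rw [single_dotProduct, Pi.single_eq_of_ne hq.symm, mul_zero]
  · rw [single_dotProduct, Pi.single_eq_of_ne hq.symm, mul_zero]

theorem tt_pair (hl : IsLen ℓ) {M : ℤ}
    (hM : ∀ (i j : Fin k) (h : i ≠ j) (x : ℤ), ℓ (el i j h (M * x)) ≤ t) (u u' : Fin k → ℤ)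
    (hu : ∀ i, M ∣ u i - u' i) {p q l : Fin k} (hp : l ≠ p) (hq : l ≠ q) (hpq : p ≠ q)
    (s s' : ℤ) (hs : M ∣ s - s') :
    TT ℓ t 8 (Pi.single p (s * u p) + Pi.single q (s * u q)) (psi u p q)
      (Pi.single p (s' * u' p) + Pi.single q (s' * u' q)) (psi u' p q) := by
  have h11 : M ∣ (1 : ℤ) - 1 := by simp
  have hA : TT ℓ t (1 + 1) (Pi.single p (u p) + Pi.single q (u q)) (Pi.single l 1)
      (Pi.single p (u' p) + Pi.single q (u' q)) (Pi.single l 1) := by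
    apply tt_add_left hl
    · exact tt_el hM hp.symm _ _ _ _ (dvd_mul_sub (hu p) h11)
    · exact tt_el hM hq.symm _ _ _ _ (dvd_mul_sub (hu q) h11)
    · rw [single_dotProduct, Pi.single_eq_of_ne hq, mul_zero]
    · rw [single_dotProduct, Pi.single_eq_of_ne hq, mul_zero]
  have hB : TT ℓ t (1 + 1) (Pi.single l s) (psi u p q) (Pi.single l s') (psi u' p q) :=
    tt_row hl hM u u' hu hp hq s s' hs
  have h3 := tt_comm hl hA hB ?_ ?_ ?_ ?_ ?_ ?_
  · rw [single_dotProduct, Pi.single_eq_same, one_mul, single_dotProduct, Pi.single_eq_same,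
      one_mul, tt_smul] at h3
    have e : ∀ (s : ℤ) (u : Fin k → ℤ), s • (Pi.single p (u p) + Pi.single q (u q)) =
        (Pi.single p (s * u p) + Pi.single q (s * u q) : Fin k → ℤ) := by
      intro s u
      funext a
      simp only [Pi.smul_apply, Pi.add_apply, Pi.single_apply, smul_eq_mul]
      split_ifs <;> ring
    rw [← e, ← e]
    exact h3
  · rw [single_dotProduct, Pi.add_apply, Pi.single_eq_of_ne hp, Pi.single_eq_of_ne hq]
    ring
  · rw [psi_dot, Pi.single_eq_of_ne hp.symm, Pi.single_eq_of_ne hq.symm]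
    ring
  · rw [psi_dot, Pi.add_apply, Pi.add_apply, Pi.single_eq_same, Pi.single_eq_same,
      Pi.single_eq_of_ne hpq, Pi.single_eq_of_ne hpq.symm]
    ring
  · rw [single_dotProduct, Pi.add_apply, Pi.single_eq_of_ne hp, Pi.single_eq_of_ne hq]
    ring
  · rw [psi_dot, Pi.single_eq_of_ne hp.symm, Pi.single_eq_of_ne hq.symm]
    ring
  · rw [psi_dot, Pi.add_apply, Pi.add_apply, Pi.single_eq_same, Pi.single_eq_same,
      Pi.single_eq_of_ne hpq, Pi.single_eq_of_ne hpq.symm]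
    ring

theorem tt_psi (hl : IsLen ℓ) (ht : 0 ≤ t) (hk : 3 ≤ k) {M : ℤ}
    (hM : ∀ (i j : Fin k) (h : i ≠ j) (x : ℤ), ℓ (el i j h (M * x)) ≤ t) (u u' : Fin k → ℤ)
    (hu : ∀ i, M ∣ u i - u' i) (p q : Fin k) (s s' : ℤ) (hs : M ∣ s - s') :
    TT ℓ t (8 + 2 * k) (s • u) (psi u p q) (s' • u') (psi u' p q) := by
  by_cases hpq : p = q
  · subst hpq
    have e : ∀ u : Fin k → ℤ, psi u p p = 0 := by
      intro u
      funext a
      unfold psi
      simp only [Pi.add_apply, Pi.single_apply, Pi.zero_apply]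
      split_ifs <;> ring
    rw [e, e]
    exact tt_mono ht (Nat.zero_le _) (tt_zero hl _ _)
  obtain ⟨l, hlm⟩ : ∃ l : Fin k, l ∉ ({p, q} : Finset (Fin k)) := by
    by_contra h
    push Not at h
    have h1 : (Finset.univ : Finset (Fin k)) ⊆ {p, q} := fun x _ => h x
    have h2 := Finset.card_le_card h1
    rw [Finset.card_univ, Fintype.card_fin] at h2
    have h3 := Finset.card_le_two (a := p) (b := q)
    omega
  rw [Finset.mem_insert, Finset.mem_singleton, not_or] at hlm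
  have key : ∀ R : Finset (Fin k), p ∉ R → q ∉ R →
      TT ℓ t (8 + 2 * R.card) ((Pi.single p (s * u p) + Pi.single q (s * u q)) +
        ∑ r ∈ R, (Pi.single r (s * u r) : Fin k → ℤ)) (psi u p q)
        ((Pi.single p (s' * u' p) + Pi.single q (s' * u' q)) +
        ∑ r ∈ R, (Pi.single r (s' * u' r) : Fin k → ℤ)) (psi u' p q) := by
    intro R
    induction R using Finset.induction_on with
    | empty =>
      intro _ _
      rw [Finset.sum_empty, Finset.sum_empty, add_zero, add_zero, Finset.card_empty]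
      exact tt_pair hl hM u u' hu hlm.1 hlm.2 hpq s s' hs
    | insert r R hr ih =>
      intro hp hq
      rw [Finset.mem_insert, not_or] at hp hq
      have e9 : ∀ X Y Z : Fin k → ℤ, X + (Y + Z) = X + Z + Y := by
        intro X Y Z
        abel
      have e8 : 8 + 2 * (R.card + 1) = (8 + 2 * R.card) + (1 + 1) := by ring
      rw [Finset.sum_insert hr, Finset.sum_insert hr, e9, e9, Finset.card_insert_of_notMem hr, e8]
      apply tt_add_left hl (ih hp.2 hq.2)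
      · exact tt_row hl hM u u' hu (Ne.symm hp.1) (Ne.symm hq.1) _ _ (dvd_mul_sub hs (hu r))
      · rw [psi_dot, Pi.single_eq_of_ne hp.1, Pi.single_eq_of_ne hq.1]
        ring
      · rw [psi_dot, Pi.single_eq_of_ne hp.1, Pi.single_eq_of_ne hq.1]
        ring
  have e : ∀ (s : ℤ) (u : Fin k → ℤ), s • u = (Pi.single p (s * u p) + Pi.single q (s * u q)) +
        ∑ r ∈ (Finset.univ.erase p).erase q, (Pi.single r (s * u r) : Fin k → ℤ) := by
    intro s u
    have h1 := Finset.univ_sum_single (s • u)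
    rw [← h1, ← Finset.add_sum_erase _ _ (Finset.mem_univ p), ← Finset.add_sum_erase _ _
      (Finset.mem_erase.2 ⟨fun h => hpq h.symm, Finset.mem_univ q⟩), ← add_assoc]
    rfl
  rw [e s u, e s' u']
  refine tt_mono ht ?_ (key _ (fun h => by simp at h) (fun h => by simp at h))
  have h1 : ((Finset.univ.erase p).erase q).card ≤ k := by
    refine (Finset.card_le_univ _).trans ?_
    rw [Fintype.card_fin]
  omega

theorem tt_sum (hl : IsLen ℓ) (ht : 0 ≤ t) (hk : 3 ≤ k) {M : ℤ}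
    (hM : ∀ (i j : Fin k) (h : i ≠ j) (x : ℤ), ℓ (el i j h (M * x)) ≤ t)
    (u w φ u' w' φ' : Fin k → ℤ)
    (hu : ∀ i, M ∣ u i - u' i) (hw : ∀ i, M ∣ w i - w' i) (hφ : ∀ i, M ∣ φ i - φ' i)
    (r : ℤ) (S : Finset (Fin k × Fin k)) :
    TT ℓ t ((8 + 2 * k) * S.card) (r • u) (∑ a ∈ S, (w a.1 * φ a.2) • psi u a.1 a.2)
      (r • u') (∑ a ∈ S, (w' a.1 * φ' a.2) • psi u' a.1 a.2) := by
  induction S using Finset.induction_on with
  | empty =>
    rw [Finset.sum_empty, Finset.sum_empty]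
    exact tt_mono ht (Nat.zero_le _) (tt_zero hl _ _)
  | insert a S ha ih =>
    rw [Finset.sum_insert ha, Finset.sum_insert ha, Finset.card_insert_of_notMem ha]
    have e8 : (8 + 2 * k) * (S.card + 1) = (8 + 2 * k) + (8 + 2 * k) * S.card := by ring
    rw [e8]
    apply tt_add_right hl _ ih
    · rw [smul_dotProduct, dotProduct_smul, psi_dot_self, smul_zero, smul_zero]
    · rw [smul_dotProduct, dotProduct_smul, psi_dot_self, smul_zero, smul_zero]
    · rw [tt_smul, smul_smul, smul_smul]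
      refine tt_psi hl ht hk hM u u' hu a.1 a.2 _ _ ?_
      have h11 : M ∣ r - r := by simp
      exact dvd_mul_sub (dvd_mul_sub (hw a.1) (hφ a.2)) h11

/-- the conjugate of an elementary matrix -/
theorem conj_val (x : SL k) (i j : Fin k) (h : i ≠ j) (t : ℤ) :
    (x * el i j h t * x⁻¹).1 =
      1 + vecMulVec (t • fun a => x.1 a i) (fun b => (x⁻¹).1 j b) := by
  have hinv' : x.1 * (x⁻¹).1 = 1 := congrArg (fun y : SL k => y.1) (mul_inv_cancel x)
  change x.1 * Matrix.transvection i j t * (x⁻¹).1 = _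
  unfold Matrix.transvection
  rw [mul_add, add_mul, mul_one, hinv']
  congr 1
  have e1 : Matrix.single i j t =
      vecMulVec (Pi.single i t) (Pi.single j (1 : ℤ)) := by
    ext p q
    rw [vecMulVec_apply, Matrix.single_apply, Pi.single_apply, Pi.single_apply]
    by_cases h1 : p = i
    · by_cases h2 : q = j
      · simp [h1, h2]
      · simp [h1, h2, Ne.symm h2]
    · simp [h1, Ne.symm h1]
  rw [e1, mul_vecMulVec, vecMulVec_mul]
  congr 1
  · funext a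
    rw [mulVec_single]
    simp [mul_comm]
  · funext b
    rw [single_one_vecMul]
    rfl

theorem inv_dvd {M : ℤ} (W : SL k)
    (hW : ∀ a b : Fin k, M ∣ W.1 a b - (1 : Matrix (Fin k) (Fin k) ℤ) a b) (a b : Fin k) :
    M ∣ (W⁻¹).1 a b - (1 : Matrix (Fin k) (Fin k) ℤ) a b := by
  have hinv : (W⁻¹).1 * W.1 = 1 := congrArg (fun y : SL k => y.1) (inv_mul_cancel W)
  have e : (W⁻¹).1 - 1 = -((W⁻¹).1 * (W.1 - 1)) := by
    rw [mul_sub, hinv, mul_one]
    abel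
  have e2 := congrFun (congrFun e a) b
  rw [Matrix.sub_apply] at e2
  rw [e2, Matrix.neg_apply, Matrix.mul_apply]
  apply Dvd.dvd.neg_right
  apply Finset.dvd_sum
  intro c _
  rw [Matrix.sub_apply]
  exact (hW c b).mul_left _

/-- SUSLIN's lemma with a bound -/
theorem suslin (k : ℕ) (hk : 3 ≤ k) : ∃ C : ℕ, ∀ (ℓ : SL k → ℝ), IsLen ℓ → ∀ (t : ℝ) (M : ℤ),
    (∀ (i j : Fin k) (h : i ≠ j) (x : ℤ), ℓ (el i j h (M * x)) ≤ t) → ∀ W : SL k,
    (∀ a b : Fin k, M ∣ W.1 a b - (1 : Matrix (Fin k) (Fin k) ℤ) a b) →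
    ∀ (i j : Fin k) (h : i ≠ j) (r : ℤ),
      ℓ (W * el i j h r * (el i j h r * W)⁻¹) ≤ C * t := by
  refine ⟨(8 + 2 * k) * (Finset.univ : Finset (Fin k × Fin k)).card, ?_⟩
  intro ℓ hl t M hM W hW i j h r
  have ht : 0 ≤ t := (hl.nonneg _).trans (hM i j h 0)
  have hcol : ∀ x : SL k, (fun b => (x⁻¹).1 i b) ⬝ᵥ (fun a => x.1 a i) = 1 := by
    intro x
    have hinv : (x⁻¹).1 * x.1 = 1 := congrArg (fun y : SL k => y.1) (inv_mul_cancel x)
    have := congrFun (congrFun hinv i) i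
    rw [Matrix.mul_apply, Matrix.one_apply_eq] at this
    exact this
  have hrow : ∀ x : SL k, (fun b => (x⁻¹).1 j b) ⬝ᵥ (fun a => x.1 a i) = 0 := by
    intro x
    have hinv : (x⁻¹).1 * x.1 = 1 := congrArg (fun y : SL k => y.1) (inv_mul_cancel x)
    have := congrFun (congrFun hinv j) i
    rw [Matrix.mul_apply, Matrix.one_apply_ne (Ne.symm h)] at this
    exact this
  have hone : ∀ a b : Fin k, ((1 : SL k)⁻¹).1 a b = (1 : Matrix (Fin k) (Fin k) ℤ) a b := by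
    intro a b
    rw [inv_one]
    rfl
  have h1 := tt_sum hl ht hk hM (fun a => W.1 a i) (fun b => (W⁻¹).1 i b)
    (fun b => (W⁻¹).1 j b) (fun a => (1 : SL k).1 a i) (fun b => ((1 : SL k)⁻¹).1 i b)
    (fun b => ((1 : SL k)⁻¹).1 j b) (fun a => hW a i)
    (fun b => by
      rw [hone]
      exact inv_dvd W hW i b)
    (fun b => by
      rw [hone]
      exact inv_dvd W hW j b) r Finset.univ
  rw [psi_sum _ _ _ (hcol W) (hrow W), psi_sum _ _ _ (hcol 1) (hrow 1)] at h1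
  obtain ⟨g, g', eg, eg', n1⟩ := h1
  rw [← conj_val W i j h r] at eg
  rw [← conj_val 1 i j h r] at eg'
  have e1 : g = W * el i j h r * W⁻¹ := Subtype.ext eg
  have e2 : g' = 1 * el i j h r * 1⁻¹ := Subtype.ext eg'
  unfold Nr at n1
  rw [e1, e2] at n1
  have e3 : W * el i j h r * (el i j h r * W)⁻¹ =
      W * el i j h r * W⁻¹ * (1 * el i j h r * 1⁻¹)⁻¹ := by group
  rw [e3]
  exact n1

end Pool.Agent.K89
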